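import Pool.Agent.Work.LipGraph.Var.V9

/-!
# VAR: reduction theorem and the trace formula for functions vanishing on one spectrum
-/

set_option autoImplicit false
set_option linter.unusedSectionVars false

open scoped BigOperators InnerProductSpace ComplexConjugate Topology
open Filter Module MeasureTheory

namespace Pool.Var

universe v

variable {H : Type v} [NormedAddCommGroup H] [InnerProductSpace ℂ H] [CompleteSpace H]

/-- **Reduction theorem**: `N₂` can be replaced by a normal operator with spectrum in `σ(N₁)`. -/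
theorem reduction_measures {N₁ N₂ : H →L[ℂ] H} (h₁ : IsStarNormal N₁) (h₂ : IsStarNormal N₂)
    {x y : ℕ → H} (hs : Summable fun k => ‖x k‖ * ‖y k‖)
    (hD : ∀ z, HasSum (fun k => inner ℂ (y k) z • x k) ((N₂ - N₁) z)) :
    ∃ N' : H →L[ℂ] H, IsStarNormal N' ∧ spectrum ℂ N' ⊆ spectrum ℂ N₁ ∧
      (∃ x' y' : ℕ → H, Summable (fun k => ‖x' k‖ * ‖y' k‖) ∧
        ∑' k, ‖x' k‖ * ‖y' k‖ ≤ 6144 * ∑' k, ‖x k‖ * ‖y k‖ ∧
        ∀ z, HasSum (fun k => inner ℂ (y' k) z • x' k) ((N₂ - N') z)) ∧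
      ∃ μ : Fin 4 → Measure ℂ, (∀ i, IsFiniteMeasure (μ i)) ∧
        (∀ i, (μ i Set.univ).toReal ≤ 6144 * ∑' k, ‖x k‖ * ‖y k‖) ∧
        ∀ f : ℂ → ℂ, ContDiff ℝ (⊤ : ℕ∞) f → HasCompactSupport f →
          ∀ (ι : Type) (e : HilbertBasis ι ℂ H),
          HasSum (fun i => inner ℂ (e i) ((cfc f N₂ - cfc f N') (e i)))
            (((∫ z : ℂ, fderiv ℝ f z 1 ∂(μ 0)) - ∫ z : ℂ, fderiv ℝ f z 1 ∂(μ 1)) +
              ((∫ z : ℂ, fderiv ℝ f z Complex.I ∂(μ 2)) -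
                ∫ z : ℂ, fderiv ℝ f z Complex.I ∂(μ 3))) := by
  obtain ⟨S, a, b, hS, haA, haK, hbK, hw, hwM, hN, hsp, hcfc⟩ := reduction h₂ h₁ hs hD
  have hcount : Countable S := by
    have h1 := hw.countable_support
    have h2 : (Function.support fun e : S => ‖a e - b e‖) = Set.univ := by
      ext e
      simp only [Function.mem_support, Set.mem_univ, iff_true]
      intro h
      rw [norm_eq_zero, sub_eq_zero] at h
      exact haK e (h ▸ hbK e)
    rw [h2, Set.countable_univ_iff] at h1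
    exact h1
  obtain ⟨μ, hμ1, hμ2, hμ3⟩ := measures a b hw
  refine ⟨NN N₂ a b, hN, hsp, ?_, μ, hμ1, fun i => (hμ2 i).trans hwM, fun f hf hfc ι e => ?_⟩
  · obtain ⟨x', y', g1, g2, g3, -⟩ := dgo_nuclear hS hw
    refine ⟨x', y', g1, g2 ▸ hwM, fun z => ?_⟩
    have h1 : N₂ - NN N₂ a b = dgo S (fun e => a e - b e) := by
      unfold NN
      rw [sub_sub_cancel]
    rw [h1]
    exact g3 z
  · obtain ⟨L, hL⟩ := (hf.of_le (by exact_mod_cast le_top : (1 : WithTop ℕ∞) ≤ _)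
      ).lipschitzWith_of_hasCompactSupport hfc one_ne_zero
    have hfs : Summable fun e => ‖f (a e) - f (b e)‖ := by
      refine Summable.of_nonneg_of_le (fun e => norm_nonneg _) (fun e => ?_) (hw.mul_left (L : ℝ))
      have := hL.dist_le_mul (a e) (b e)
      rwa [dist_eq_norm, dist_eq_norm] at this
    rw [hcfc f hf.continuous hfs, ← (hμ3 f hf hfc).tsum_eq]
    exact dgo_trace hS hfs e

/-- The trace formula for all pairs and all `f` which vanish on the spectrum of `N₁`. -/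
theorem zeros_measures {N₁ N₂ : H →L[ℂ] H} (h₁ : IsStarNormal N₁) (h₂ : IsStarNormal N₂)
    {x y : ℕ → H} (hs : Summable fun k => ‖x k‖ * ‖y k‖)
    (hD : ∀ z, HasSum (fun k => inner ℂ (y k) z • x k) ((N₂ - N₁) z)) :
    ∃ μ : Fin 4 → Measure ℂ, (∀ i, IsFiniteMeasure (μ i)) ∧
        (∀ i, (μ i Set.univ).toReal ≤ 6144 * ∑' k, ‖x k‖ * ‖y k‖) ∧
        ∀ f : ℂ → ℂ, ContDiff ℝ (⊤ : ℕ∞) f → HasCompactSupport f →
          (∀ z ∈ spectrum ℂ N₁, f z = 0) → ∀ (ι : Type) (e : HilbertBasis ι ℂ H),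
          HasSum (fun i => inner ℂ (e i) ((cfc f N₂ - cfc f N₁) (e i)))
            (((∫ z : ℂ, fderiv ℝ f z 1 ∂(μ 0)) - ∫ z : ℂ, fderiv ℝ f z 1 ∂(μ 1)) +
              ((∫ z : ℂ, fderiv ℝ f z Complex.I ∂(μ 2)) -
                ∫ z : ℂ, fderiv ℝ f z Complex.I ∂(μ 3))) := by
  obtain ⟨N', hN, hsp, -, μ, hμ1, hμ2, hμ3⟩ := reduction_measures h₁ h₂ hs hD
  refine ⟨μ, hμ1, hμ2, fun f hf hfc hf0 ι e => ?_⟩
  have h0 : ∀ N : H →L[ℂ] H, spectrum ℂ N ⊆ spectrum ℂ N₁ → cfc f N = 0 := by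
    intro N hN
    rw [cfc_congr (g := fun _ => (0 : ℂ)) (fun z hz => hf0 z (hN hz)), cfc_const_zero]
  have h1 := hμ3 f hf hfc ι e
  rw [h0 N' hsp] at h1
  rw [h0 N₁ subset_rfl]
  exact h1

end Pool.Var
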