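import Mathlib

/-!
# VAR: Bessel families, Gram multipliers, the recursion

`Bes v c`: the family `v` of vectors has Bessel bound `c`.  `ψ` is a star homomorphism of `C(Ω, ℂ)`
(functional calculus of a normal operator).
-/

set_option autoImplicit false
set_option linter.unusedSectionVars false

open scoped BigOperators InnerProductSpace ComplexConjugate

namespace Pool.Var

section

variable {H : Type*} [NormedAddCommGroup H] [InnerProductSpace ℂ H]
variable {ι : Type*} [Fintype ι]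

/-- Bessel family -/
def Bes (v : ι → H) (c : ℝ) : Prop := ∀ z : H, ∑ i, ‖inner ℂ (v i) z‖ ^ 2 ≤ c ^ 2 * ‖z‖ ^ 2

theorem Bes.mono {v : ι → H} {c c' : ℝ} (h : Bes v c) (h0 : 0 ≤ c) (hc : c ≤ c') : Bes v c' := by
  intro z
  refine (h z).trans ?_
  have : c ^ 2 ≤ c' ^ 2 := pow_le_pow_left₀ h0 hc 2
  exact mul_le_mul_of_nonneg_right this (by positivity)

theorem Bes.zero : Bes (fun _ : ι => (0 : H)) 1 := by
  intro z
  simp

/-- Cauchy-Schwarz for two Bessel families -/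
theorem Bes.pair {v w : ι → H} {c d : ℝ} (hv : Bes v c) (hw : Bes w d) (hc : 0 ≤ c) (hd : 0 ≤ d)
    (x y : H) : ∑ i, ‖inner ℂ (v i) x‖ * ‖inner ℂ (w i) y‖ ≤ c * d * (‖x‖ * ‖y‖) := by
  calc _ ≤ √(∑ i, ‖inner ℂ (v i) x‖ ^ 2) * √(∑ i, ‖inner ℂ (w i) y‖ ^ 2) :=
        Real.sum_mul_le_sqrt_mul_sqrt _ _ _
    _ ≤ (c * ‖x‖) * (d * ‖y‖) := by
        gcongr
        · rw [Real.sqrt_le_left (by positivity), mul_pow]; exact hv x
        · rw [Real.sqrt_le_left (by positivity), mul_pow]; exact hw y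
    _ = _ := by ring

theorem Bes.add {v w : ι → H} {c d : ℝ} (hv : Bes v c) (hw : Bes w d) (hc : 0 ≤ c) (hd : 0 ≤ d) :
    Bes (fun i => v i + w i) (c + d) := by
  intro z
  have h1 : ∀ i, ‖inner ℂ (v i + w i) z‖ ^ 2 ≤ ‖inner ℂ (v i) z‖ ^ 2 +
      2 * (‖inner ℂ (v i) z‖ * ‖inner ℂ (w i) z‖) + ‖inner ℂ (w i) z‖ ^ 2 := by
    intro i
    rw [inner_add_left]
    have h2 := norm_add_le (inner ℂ (v i) z) (inner ℂ (w i) z)
    have h3 := norm_nonneg (inner ℂ (v i) z + inner ℂ (w i) z)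
    nlinarith
  refine (Finset.sum_le_sum fun i _ => h1 i).trans ?_
  rw [Finset.sum_add_distrib, Finset.sum_add_distrib, ← Finset.mul_sum]
  have h2 := hv z
  have h3 := hw z
  have h4 := Bes.pair hv hw hc hd z z
  nlinarith

theorem Bes.neg {v : ι → H} {c : ℝ} (hv : Bes v c) : Bes (fun i => -v i) c := by
  intro z
  have := hv z
  simpa using this

/-- the operator `R R*` of a family -/
noncomputable def rr (r : ι → H) (z : H) : H := ∑ m, inner ℂ (r m) z • r m

theorem inner_rr (r : ι → H) (x z : H) :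
    inner ℂ x (rr r z) = ∑ m, inner ℂ (r m) z * inner ℂ x (r m) := by
  unfold rr
  rw [inner_sum]
  exact Finset.sum_congr rfl fun m _ => inner_smul_right _ _ _

theorem rr_symm (r : ι → H) (x z : H) : inner ℂ (rr r x) z = inner ℂ x (rr r z) := by
  rw [inner_rr, ← inner_conj_symm, inner_rr, map_sum]
  refine Finset.sum_congr rfl fun m _ => ?_
  rw [map_mul, inner_conj_symm, inner_conj_symm, mul_comm]

theorem re_inner_rr (r : ι → H) (z : H) :
    (inner ℂ z (rr r z)).re = ∑ m, ‖inner ℂ (r m) z‖ ^ 2 := by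
  rw [inner_rr, Complex.re_sum]
  refine Finset.sum_congr rfl fun m _ => ?_
  rw [← inner_conj_symm z (r m), Complex.mul_conj, Complex.ofReal_re, Complex.normSq_eq_norm_sq]

theorem norm_rr_sq {r : ι → H} (hr : Bes r 1) (z : H) :
    ‖rr r z‖ ^ 2 ≤ ∑ m, ‖inner ℂ (r m) z‖ ^ 2 := by
  set ρ := ∑ m, ‖inner ℂ (r m) z‖ ^ 2 with hρ
  have hρ0 : 0 ≤ ρ := Finset.sum_nonneg fun m _ => by positivity
  have h1 : ‖rr r z‖ ^ 2 ≤ √ρ * ‖rr r z‖ := by
    have h2 : ‖rr r z‖ ^ 2 = (inner ℂ (rr r z) (rr r z)).re := by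
      rw [inner_self_eq_norm_sq_to_K]; norm_cast
    rw [h2, inner_rr, Complex.re_sum]
    calc ∑ m, (inner ℂ (r m) z * inner ℂ (rr r z) (r m)).re ≤
          ∑ m, ‖inner ℂ (r m) z‖ * ‖inner ℂ (r m) (rr r z)‖ := by
          refine Finset.sum_le_sum fun m _ => (Complex.re_le_norm _).trans ?_
          rw [norm_mul, norm_inner_symm (rr r z)]
      _ ≤ √(∑ m, ‖inner ℂ (r m) z‖ ^ 2) * √(∑ m, ‖inner ℂ (r m) (rr r z)‖ ^ 2) :=
          Real.sum_mul_le_sqrt_mul_sqrt _ _ _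
      _ ≤ √ρ * ‖rr r z‖ := by
          refine mul_le_mul_of_nonneg_left ?_ (Real.sqrt_nonneg _)
          rw [Real.sqrt_le_left (norm_nonneg _)]
          have := hr (rr r z)
          simpa using this
  have h3 : ‖rr r z‖ ≤ √ρ := by
    rcases eq_or_lt_of_le (norm_nonneg (rr r z)) with h | h
    · rw [← h]; exact Real.sqrt_nonneg _
    · rw [pow_two] at h1
      exact le_of_mul_le_mul_right h1 h
  calc ‖rr r z‖ ^ 2 ≤ √ρ ^ 2 := pow_le_pow_left₀ (norm_nonneg _) h3 2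
    _ = ρ := Real.sq_sqrt hρ0

/-- the row `[R, 1 - R R*]` is a contraction -/
theorem contr_rr {r : ι → H} (hr : Bes r 1) (z : H) :
    ∑ m, ‖inner ℂ (r m) z‖ ^ 2 + ‖z - rr r z‖ ^ 2 ≤ ‖z‖ ^ 2 := by
  have h1 := norm_rr_sq hr z
  have h2 : ‖z - rr r z‖ ^ 2 = ‖z‖ ^ 2 - 2 * (inner ℂ z (rr r z)).re + ‖rr r z‖ ^ 2 := by
    have := @norm_sub_sq ℂ H _ _ _ z (rr r z)
    simpa using this
  rw [re_inner_rr] at h2
  linarith

/-- the combination of a family `r` and a family `q` with disjoint supports -/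
theorem Bes.comb {r q : ι → H} (hr : Bes r 1) (hq : Bes q 1) (hd : ∀ i, r i = 0 ∨ q i = 0) :
    Bes (fun i => r i + (q i - rr r (q i))) 1 := by
  intro z
  have h1 : ∀ i, ‖inner ℂ (r i + (q i - rr r (q i))) z‖ ^ 2 ≤
      ‖inner ℂ (r i) z‖ ^ 2 + ‖inner ℂ (q i) (z - rr r z)‖ ^ 2 := by
    intro i
    have h2 : inner ℂ (r i + (q i - rr r (q i))) z =
        inner ℂ (r i) z + inner ℂ (q i) (z - rr r z) := by
      rw [inner_add_left, inner_sub_left, rr_symm, inner_sub_right]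
    rw [h2]
    rcases hd i with h | h
    · rw [h]; simp
    · rw [h]; simp
  refine (Finset.sum_le_sum fun i _ => h1 i).trans ?_
  rw [Finset.sum_add_distrib]
  have h3 := hq (z - rr r z)
  have h4 := contr_rr hr z
  rw [one_pow, one_mul] at h3 ⊢
  linarith

/-- the error term of the recursion -/
theorem err_le {r q t : ι → H} {c : ℝ} (hc : 0 ≤ c) (hq : Bes q 1) (ht : Bes t c) :
    |∑ i, (inner ℂ (t i) (rr r (q i))).re| ≤ c * ∑ m, ‖r m‖ ^ 2 := by
  have h1 : ∑ i, (inner ℂ (t i) (rr r (q i))).re =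
      (∑ m, ∑ i, inner ℂ (r m) (q i) * inner ℂ (t i) (r m)).re := by
    rw [Finset.sum_comm, Complex.re_sum]
    exact Finset.sum_congr rfl fun i _ => by rw [inner_rr]
  rw [h1]
  refine (Complex.abs_re_le_norm _).trans ((norm_sum_le _ _).trans ?_)
  rw [Finset.mul_sum]
  refine Finset.sum_le_sum fun m _ => (norm_sum_le _ _).trans ?_
  calc ∑ i, ‖inner ℂ (r m) (q i) * inner ℂ (t i) (r m)‖ =
        ∑ i, ‖inner ℂ (q i) (r m)‖ * ‖inner ℂ (t i) (r m)‖ := by
        refine Finset.sum_congr rfl fun i _ => ?_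
        rw [norm_mul, norm_inner_symm (r m)]
    _ ≤ 1 * c * (‖r m‖ * ‖r m‖) := Bes.pair hq ht zero_le_one hc _ _
    _ = c * ‖r m‖ ^ 2 := by ring

end

section

variable {H : Type*} [NormedAddCommGroup H] [InnerProductSpace ℂ H] [CompleteSpace H]
variable {ι : Type*} [Fintype ι]
variable {Ω : Type*} [TopologicalSpace Ω] [CompactSpace Ω]
variable (ψ : C(Ω, ℂ) →⋆ₐ[ℂ] (H →L[ℂ] H))

theorem psi_adj (f : C(Ω, ℂ)) (x z : H) : inner ℂ (ψ f x) z = inner ℂ x (ψ (star f) z) := by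
  rw [map_star, ContinuousLinearMap.star_eq_adjoint, ContinuousLinearMap.adjoint_inner_right]

theorem psi_norm (f : C(Ω, ℂ)) : ‖ψ f‖ ≤ ‖f‖ := NonUnitalStarAlgHom.norm_apply_le ψ f

/-- Gram multipliers -/
theorem Bes.gram {κ : Type*} (s : Finset κ) {v : ι → H} {c A B : ℝ} (hv : Bes v c)
    (α : ι → κ → ℂ) (β : κ → C(Ω, ℂ)) (hα : ∀ i, ∑ k ∈ s, ‖α i k‖ ^ 2 ≤ A ^ 2)
    (hβ : ∀ ω, ∑ k ∈ s, ‖β k ω‖ ^ 2 ≤ B ^ 2) :
    Bes (fun i => ψ (∑ k ∈ s, α i k • β k) (v i)) (A * B * c) := by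
  intro z
  have h1 : ∀ i, ‖inner ℂ (ψ (∑ k ∈ s, α i k • β k) (v i)) z‖ ^ 2 ≤
      A ^ 2 * ∑ k ∈ s, ‖inner ℂ (v i) (ψ (star (β k)) z)‖ ^ 2 := by
    intro i
    have h2 : inner ℂ (ψ (∑ k ∈ s, α i k • β k) (v i)) z =
        ∑ k ∈ s, conj (α i k) * inner ℂ (v i) (ψ (star (β k)) z) := by
      rw [map_sum, _root_.sum_apply, sum_inner]
      refine Finset.sum_congr rfl fun k _ => ?_
      rw [map_smul, _root_.smul_apply, inner_smul_left, psi_adj]
    rw [h2]
    calc ‖∑ k ∈ s, conj (α i k) * inner ℂ (v i) (ψ (star (β k)) z)‖ ^ 2 ≤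
          (∑ k ∈ s, ‖α i k‖ * ‖inner ℂ (v i) (ψ (star (β k)) z)‖) ^ 2 := by
          refine pow_le_pow_left₀ (norm_nonneg _) ((norm_sum_le _ _).trans (le_of_eq ?_)) 2
          refine Finset.sum_congr rfl fun k _ => ?_
          rw [norm_mul, RCLike.norm_conj]
      _ ≤ (∑ k ∈ s, ‖α i k‖ ^ 2) * ∑ k ∈ s, ‖inner ℂ (v i) (ψ (star (β k)) z)‖ ^ 2 :=
          Finset.sum_mul_sq_le_sq_mul_sq _ _ _
      _ ≤ _ := mul_le_mul_of_nonneg_right (hα i) (Finset.sum_nonneg fun k _ => by positivity)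
  have h2 : ∑ k ∈ s, ‖ψ (star (β k)) z‖ ^ 2 ≤ B ^ 2 * ‖z‖ ^ 2 := by
    have h3 : ∑ k ∈ s, ‖ψ (star (β k)) z‖ ^ 2 =
        (inner ℂ z (ψ (∑ k ∈ s, β k * star (β k)) z)).re := by
      rw [map_sum, _root_.sum_apply, inner_sum, Complex.re_sum]
      refine Finset.sum_congr rfl fun k _ => ?_
      rw [map_mul, mul_apply_eq_comp]
      have h4 := psi_adj ψ (star (β k)) z (ψ (star (β k)) z)
      rw [star_star] at h4
      rw [← h4, inner_self_eq_norm_sq_to_K]
      norm_cast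
    rw [h3]
    have h5 : ‖∑ k ∈ s, β k * star (β k)‖ ≤ B ^ 2 := by
      rw [ContinuousMap.norm_le _ (by positivity)]
      intro ω
      refine le_trans (le_of_eq ?_) (hβ ω)
      rw [ContinuousMap.coe_sum, Finset.sum_apply]
      have h6 : ∀ k ∈ s, (β k * star (β k)) ω = ((‖β k ω‖ ^ 2 : ℝ) : ℂ) := by
        intro k _
        rw [ContinuousMap.mul_apply, ContinuousMap.star_apply, RCLike.star_def, Complex.mul_conj,
          Complex.normSq_eq_norm_sq]
      rw [Finset.sum_congr rfl h6, ← Complex.ofReal_sum, Complex.norm_real, Real.norm_eq_abs,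
        abs_of_nonneg (Finset.sum_nonneg fun k _ => by positivity)]
    calc _ ≤ ‖inner ℂ z (ψ (∑ k ∈ s, β k * star (β k)) z)‖ := Complex.re_le_norm _
      _ ≤ ‖z‖ * ‖ψ (∑ k ∈ s, β k * star (β k)) z‖ := norm_inner_le_norm _ _
      _ ≤ ‖z‖ * (‖∑ k ∈ s, β k * star (β k)‖ * ‖z‖) := by
          gcongr
          exact ((ψ _).le_opNorm z).trans (by gcongr; exact psi_norm ψ _)
      _ ≤ ‖z‖ * (B ^ 2 * ‖z‖) := by gcongr
      _ = _ := by ring
  calc ∑ i, ‖inner ℂ (ψ (∑ k ∈ s, α i k • β k) (v i)) z‖ ^ 2 ≤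
        ∑ i, A ^ 2 * ∑ k ∈ s, ‖inner ℂ (v i) (ψ (star (β k)) z)‖ ^ 2 :=
        Finset.sum_le_sum fun i _ => h1 i
    _ = A ^ 2 * ∑ k ∈ s, ∑ i, ‖inner ℂ (v i) (ψ (star (β k)) z)‖ ^ 2 := by
        rw [← Finset.mul_sum, Finset.sum_comm]
    _ ≤ A ^ 2 * ∑ k ∈ s, c ^ 2 * ‖ψ (star (β k)) z‖ ^ 2 := by
        gcongr with k _
        exact hv _
    _ = A ^ 2 * (c ^ 2 * ∑ k ∈ s, ‖ψ (star (β k)) z‖ ^ 2) := by rw [← Finset.mul_sum]
    _ ≤ A ^ 2 * (c ^ 2 * (B ^ 2 * ‖z‖ ^ 2)) := by gcongr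
    _ = _ := by ring

/-- data of the recursion -/
structure Data (ψ : C(Ω, ℂ) →⋆ₐ[ℂ] (H →L[ℂ] H)) (e : ι → H) (G : ι → C(Ω, ℂ))
    (m : ℕ → ι → C(Ω, ℂ)) (c : ℕ → ℝ) : Prop where
  pos : ∀ l, 0 < c l
  contr : ∀ (l : ℕ) (v : ι → H) (d : ℝ), 0 ≤ d → Bes v d → Bes (fun i => ψ (m l i) (v i)) d
  real : ∀ l i, star (m l i) = m l i
  bd : ∀ l, Bes (fun i => ψ (m l i * G i) (e i)) (c l)

variable {ψ} {e : ι → H} {G : ι → C(Ω, ℂ)} {m : ℕ → ι → C(Ω, ℂ)} {c : ℕ → ℝ}

/-- the product of the multipliers of the levels `≤ l` -/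
noncomputable def KK (m : ℕ → ι → C(Ω, ℂ)) (l : ℕ) (i : ι) : C(Ω, ℂ) := ∏ j ∈ Finset.range (l + 1), m j i

/-- the rows at level `l` -/
noncomputable def TT (ψ : C(Ω, ℂ) →⋆ₐ[ℂ] (H →L[ℂ] H)) (e : ι → H) (G : ι → C(Ω, ℂ))
    (m : ℕ → ι → C(Ω, ℂ)) (l : ℕ) (i : ι) : H := ψ (KK m l i * G i) (e i)

theorem TT_succ (l : ℕ) (i : ι) :
    TT ψ e G m (l + 1) i = ψ (m (l + 1) i) (TT ψ e G m l i) := by
  unfold TT KK
  rw [Finset.prod_range_succ, mul_comm _ (m (l + 1) i), mul_assoc, map_mul,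
    mul_apply_eq_comp]

theorem Data.bes (h : Data ψ e G m c) (l : ℕ) : Bes (TT ψ e G m l) (c l) := by
  have key : ∀ k ≤ l, Bes (fun i => ψ ((∏ j ∈ Finset.range k, m j i) * (m l i * G i)) (e i))
      (c l) := by
    intro k hk
    induction k with
    | zero => simpa using h.bd l
    | succ k ih =>
      have h1 := h.contr k _ _ (h.pos l).le (ih (by omega))
      have h2 : (fun i => ψ ((∏ j ∈ Finset.range (k + 1), m j i) * (m l i * G i)) (e i)) =
          fun i => ψ (m k i) (ψ ((∏ j ∈ Finset.range k, m j i) * (m l i * G i)) (e i)) := by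
        funext i
        rw [Finset.prod_range_succ, mul_comm _ (m k i), mul_assoc, map_mul,
          mul_apply_eq_comp]
      rw [h2]; exact h1
  have h3 := key l le_rfl
  have h4 : TT ψ e G m l = fun i => ψ ((∏ j ∈ Finset.range l, m j i) * (m l i * G i)) (e i) := by
    funext i
    unfold TT KK
    rw [Finset.prod_range_succ, mul_assoc]
  rw [h4]; exact h3

open scoped Classical in
/-- the recursion -/
theorem Data.recur (h : Data ψ e G m c) (lev : ι → ℕ) (L : ℕ) : ∀ d l : ℕ, l + d = L →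
    ∃ v : ι → H, Bes v 1 ∧ (∀ i, lev i < l → v i = 0) ∧
      ∑ i, (if l ≤ lev i ∧ lev i < L then (1 / (4 * c (lev i))) * ‖TT ψ e G m (lev i) i‖ ^ 2
        else 0) ≤ ∑ i, (inner ℂ (TT ψ e G m l i) (v i)).re := by
  intro d
  induction d with
  | zero =>
    intro l hl
    refine ⟨fun _ => 0, Bes.zero, fun _ _ => rfl, ?_⟩
    rw [add_zero] at hl
    subst hl
    have h1 : ∀ i : ι, (if l ≤ lev i ∧ lev i < l then
        (1 / (4 * c (lev i))) * ‖TT ψ e G m (lev i) i‖ ^ 2 else 0) = 0 := by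
      intro i; rw [if_neg]; omega
    rw [Finset.sum_eq_zero fun i _ => h1 i]
    simp
  | succ d ih =>
    intro l hl
    obtain ⟨v', hv1, hv2, hv3⟩ := ih (l + 1) (by omega)
    have hc := h.pos l
    set t : ι → H := TT ψ e G m l with ht
    have htb : Bes t (c l) := h.bes l
    set q : ι → H := fun i => ψ (m (l + 1) i) (v' i) with hq
    have hqb : Bes q 1 := h.contr _ _ _ zero_le_one hv1
    have hq0 : ∀ i, lev i ≤ l → q i = 0 := by
      intro i hi
      simp only [hq]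
      rw [hv2 i (by omega), map_zero]
    set r : ι → H := fun i => if lev i = l then ((1 / (2 * c l) : ℝ) : ℂ) • t i else 0 with hr
    have hrb : Bes r 1 := by
      intro z
      have h1 : ∀ i, ‖inner ℂ (r i) z‖ ^ 2 ≤ (1 / (2 * c l)) ^ 2 * ‖inner ℂ (t i) z‖ ^ 2 := by
        intro i
        simp only [hr]
        split_ifs with hi
        · rw [inner_smul_left, Complex.conj_ofReal, norm_mul, Complex.norm_real, Real.norm_eq_abs,
            mul_pow, sq_abs]
        · rw [inner_zero_left, norm_zero, zero_pow two_ne_zero]; positivity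
      refine (Finset.sum_le_sum fun i _ => h1 i).trans ?_
      rw [← Finset.mul_sum]
      calc (1 / (2 * c l)) ^ 2 * ∑ i, ‖inner ℂ (t i) z‖ ^ 2 ≤
            (1 / (2 * c l)) ^ 2 * (c l ^ 2 * ‖z‖ ^ 2) := by gcongr; exact htb z
        _ = (1 / 4) * ‖z‖ ^ 2 := by field_simp; ring
        _ ≤ 1 ^ 2 * ‖z‖ ^ 2 := by gcongr; norm_num
    refine ⟨fun i => r i + (q i - rr r (q i)), Bes.comb hrb hqb ?_, ?_, ?_⟩
    · intro i
      by_cases hi : lev i = l
      · exact Or.inr (hq0 i hi.le)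
      · left; simp only [hr]; rw [if_neg hi]
    · intro i hi
      simp only
      rw [hq0 i hi.le]
      have h1 : rr r (0 : H) = 0 := by unfold rr; simp
      rw [h1]
      simp only [hr]
      rw [if_neg hi.ne]; simp
    · -- the energy
      have hsplit : ∑ i, (inner ℂ (t i) (r i + (q i - rr r (q i)))).re =
          ∑ i, (inner ℂ (t i) (r i)).re + ∑ i, (inner ℂ (t i) (q i)).re -
            ∑ i, (inner ℂ (t i) (rr r (q i))).re := by
        rw [← Finset.sum_add_distrib, ← Finset.sum_sub_distrib]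
        refine Finset.sum_congr rfl fun i _ => ?_
        rw [inner_add_right, inner_sub_right, Complex.add_re, Complex.sub_re]; ring
      have h1 : ∀ i, (inner ℂ (t i) (r i)).re =
          if lev i = l then (1 / (2 * c l)) * ‖t i‖ ^ 2 else 0 := by
        intro i
        simp only [hr]
        split_ifs with hi
        · rw [inner_smul_right, inner_self_eq_norm_sq_to_K]
          have h9 : ((1 / (2 * c l) : ℝ) : ℂ) * ((‖t i‖ : ℝ) : ℂ) ^ 2 =
              (((1 / (2 * c l)) * ‖t i‖ ^ 2 : ℝ) : ℂ) := by push_cast; ring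
          exact (congrArg Complex.re h9).trans (Complex.ofReal_re _)
        · simp
      have h2 : ∀ i, (inner ℂ (t i) (q i)).re = (inner ℂ (TT ψ e G m (l + 1) i) (v' i)).re := by
        intro i
        simp only [hq]
        rw [TT_succ, psi_adj, h.real]
      have h3 := err_le (r := r) hc.le hqb htb
      have h4 : ∀ i, ‖r i‖ ^ 2 = if lev i = l then (1 / (4 * c l ^ 2)) * ‖t i‖ ^ 2 else 0 := by
        intro i
        simp only [hr]
        split_ifs with hi
        · rw [norm_smul, Complex.norm_real, Real.norm_eq_abs, mul_pow, sq_abs]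
          congr 1; field_simp; ring
        · simp
      have h5 := (abs_le.mp h3).2
      rw [hsplit]
      have h6 : c l * ∑ m, ‖r m‖ ^ 2 = ∑ i, if lev i = l then (1 / (4 * c l)) * ‖t i‖ ^ 2
          else 0 := by
        rw [Finset.mul_sum]
        refine Finset.sum_congr rfl fun i _ => ?_
        rw [h4]
        split_ifs
        · field_simp
        · simp
      rw [h6] at h5
      have h7 : ∑ i, (inner ℂ (t i) (r i)).re = 2 * ∑ i, if lev i = l then
          (1 / (4 * c l)) * ‖t i‖ ^ 2 else 0 := by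
        rw [Finset.mul_sum]
        refine Finset.sum_congr rfl fun i _ => ?_
        rw [h1]
        split_ifs
        · field_simp; ring
        · simp
      have h8 : ∑ i, (if l ≤ lev i ∧ lev i < L then
          (1 / (4 * c (lev i))) * ‖TT ψ e G m (lev i) i‖ ^ 2 else 0) ≤
          (∑ i, if lev i = l then (1 / (4 * c l)) * ‖t i‖ ^ 2 else 0) +
          ∑ i, (if l + 1 ≤ lev i ∧ lev i < L then
          (1 / (4 * c (lev i))) * ‖TT ψ e G m (lev i) i‖ ^ 2 else 0) := by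
        rw [← Finset.sum_add_distrib]
        refine Finset.sum_le_sum fun i _ => ?_
        by_cases hi : lev i = l
        · rw [if_pos hi, if_neg (show ¬ (l + 1 ≤ lev i ∧ lev i < L) by omega), add_zero,
            if_pos (show l ≤ lev i ∧ lev i < L by omega), hi]
        · rw [if_neg hi, zero_add]
          by_cases hi2 : l + 1 ≤ lev i ∧ lev i < L
          · rw [if_pos hi2, if_pos (show l ≤ lev i ∧ lev i < L by omega)]
          · rw [if_neg hi2, if_neg (show ¬ (l ≤ lev i ∧ lev i < L) by omega)]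
      rw [Finset.sum_congr rfl fun i _ => h2 i, h7]
      linarith

open scoped Classical in
/-- **VAR**: any stopping level for every row. -/
theorem Data.var (h : Data ψ e G m c) {M : ℝ}
    (hM : ∀ v : ι → H, Bes v 1 → ∑ i, (inner ℂ (ψ (G i) (e i)) (v i)).re ≤ M)
    (lev : ι → ℕ) (L : ℕ) :
    ∑ i, (if lev i < L then (1 / (4 * c (lev i))) * ‖TT ψ e G m (lev i) i‖ ^ 2 else 0) ≤ M := by
  obtain ⟨v, h1, -, h3⟩ := h.recur lev L L 0 (by omega)
  have h4 := hM (fun i => ψ (m 0 i) (v i)) (h.contr _ _ _ zero_le_one h1)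
  have h5 : ∀ i, (inner ℂ (ψ (G i) (e i)) (ψ (m 0 i) (v i))).re =
      (inner ℂ (TT ψ e G m 0 i) (v i)).re := by
    intro i
    have h6 := psi_adj ψ (m 0 i) (ψ (G i) (e i)) (v i)
    rw [h.real] at h6
    rw [← h6]
    unfold TT KK
    rw [zero_add, Finset.prod_range_one, map_mul, mul_apply_eq_comp]
  rw [Finset.sum_congr rfl fun i _ => h5 i] at h4
  refine le_trans (le_of_eq ?_) (h3.trans h4)
  refine Finset.sum_congr rfl fun i _ => ?_
  by_cases hi : lev i < L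
  · rw [if_pos hi, if_pos ⟨Nat.zero_le _, hi⟩]
  · rw [if_neg hi, if_neg fun h => hi h.2]

end

end Pool.Var
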