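import Pool.Agent.Work.LipGraph.Var.V1

/-!
# VAR: the tent multipliers
-/

set_option autoImplicit false
set_option linter.unusedSectionVars false

open scoped BigOperators InnerProductSpace ComplexConjugate

namespace Pool.Var

/-! ### one variable -/

/-- tent function at the integer `j` -/
noncomputable def tn (j : ℤ) (u : ℝ) : ℝ := max 0 (1 - |u - j|)

theorem tn_nonneg (j : ℤ) (u : ℝ) : 0 ≤ tn j u := le_max_left _ _

theorem tn_cont (j : ℤ) : Continuous (tn j) := by unfold tn; fun_prop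

theorem tn_zero {j : ℤ} {u : ℝ} (h : 1 ≤ |u - j|) : tn j u = 0 := by
  unfold tn; exact max_eq_left (by linarith)

theorem tn_lip (j : ℤ) (u u' : ℝ) : |tn j u - tn j u'| ≤ |u - u'| := by
  unfold tn
  refine (abs_max_sub_max_le_max _ _ _ _).trans ?_
  rw [sub_self, abs_zero]
  refine max_le (abs_nonneg _) ?_
  have h : (1 - |u - j|) - (1 - |u' - j|) = |u' - j| - |u - j| := by ring
  rw [h]
  refine (abs_abs_sub_abs_le_abs_sub _ _).trans (le_of_eq ?_)
  rw [abs_sub_comm u u']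
  congr 1; ring

theorem tn_support {j : ℤ} {u : ℝ} (h : tn j u ≠ 0) : j = ⌊u⌋ ∨ j = ⌊u⌋ + 1 := by
  have h1 : |u - j| < 1 := by
    by_contra hne
    exact h (tn_zero (not_lt.mp hne))
  rw [abs_lt] at h1
  have h2 : (⌊u⌋ : ℝ) ≤ u := Int.floor_le u
  have h3 : u < ⌊u⌋ + 1 := Int.lt_floor_add_one u
  have h4 : (j : ℝ) < ⌊u⌋ + 2 := by linarith
  have h5 : (⌊u⌋ : ℝ) - 1 < j := by linarith
  have h4' : j < ⌊u⌋ + 2 := by exact_mod_cast h4
  have h5' : ⌊u⌋ - 1 < j := by exact_mod_cast h5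
  omega

theorem tn_two (u : ℝ) : tn ⌊u⌋ u + tn (⌊u⌋ + 1) u = 1 := by
  have h2 : (⌊u⌋ : ℝ) ≤ u := Int.floor_le u
  have h3 : u < ⌊u⌋ + 1 := Int.lt_floor_add_one u
  unfold tn
  push_cast
  rw [abs_of_nonneg (by linarith), abs_of_nonpos (by linarith), max_eq_right (by linarith),
    max_eq_right (by linarith)]
  ring

/-- the index set -/
noncomputable def SK (K : ℕ) : Finset ℤ := Finset.Icc (-(K : ℤ)) K

theorem tn_sum_le (K : ℕ) (u : ℝ) : ∑ j ∈ SK K, tn j u ≤ 1 := by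
  classical
  rw [← tn_two u]
  have h1 : ∑ j ∈ SK K, tn j u = ∑ j ∈ (SK K).filter (fun j => j = ⌊u⌋ ∨ j = ⌊u⌋ + 1), tn j u := by
    rw [Finset.sum_filter]
    refine Finset.sum_congr rfl fun j _ => ?_
    split_ifs with h
    · rfl
    · by_contra hne
      exact h (tn_support hne)
  rw [h1]
  have h2 : (SK K).filter (fun j => j = ⌊u⌋ ∨ j = ⌊u⌋ + 1) ⊆ {⌊u⌋, ⌊u⌋ + 1} := by
    intro j hj
    rw [Finset.mem_filter] at hj
    rw [Finset.mem_insert, Finset.mem_singleton]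
    exact hj.2
  refine (Finset.sum_le_sum_of_subset_of_nonneg h2 fun j _ _ => tn_nonneg j u).trans ?_
  rw [Finset.sum_pair (by omega)]

theorem tn_sum_eq (K : ℕ) {u : ℝ} (hu : |u| ≤ K) : ∑ j ∈ SK K, tn j u = 1 := by
  classical
  rw [abs_le] at hu
  have h2 : (⌊u⌋ : ℝ) ≤ u := Int.floor_le u
  have h3 : u < ⌊u⌋ + 1 := Int.lt_floor_add_one u
  refine le_antisymm (tn_sum_le K u) ?_
  rw [← tn_two u, ← Finset.sum_pair (f := fun j => tn j u) (show ⌊u⌋ ≠ ⌊u⌋ + 1 by omega)]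
  have h4 : ∑ j ∈ ({⌊u⌋, ⌊u⌋ + 1} : Finset ℤ), tn j u =
      ∑ j ∈ ({⌊u⌋, ⌊u⌋ + 1} : Finset ℤ).filter (fun j => j ∈ SK K), tn j u := by
    rw [Finset.sum_filter]
    refine Finset.sum_congr rfl fun j hj => ?_
    split_ifs with h
    · rfl
    · by_contra hne
      apply hne
      apply tn_zero
      unfold SK at h
      rw [Finset.mem_Icc, not_and_or] at h
      rw [Finset.mem_insert, Finset.mem_singleton] at hj
      have h5 : (-(K : ℤ)) ≤ ⌊u⌋ := by rw [Int.le_floor]; push_cast; linarith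
      rcases h with h | h
      · omega
      · have h6 : (K : ℤ) + 1 ≤ j := by omega
        have h7 : (K : ℝ) + 1 ≤ j := by exact_mod_cast h6
        rw [abs_sub_comm, abs_of_nonneg (by linarith)]
        linarith
  rw [h4]
  refine Finset.sum_le_sum_of_subset_of_nonneg ?_ fun j _ _ => tn_nonneg j u
  intro j hj
  exact (Finset.mem_filter.mp hj).2

theorem tn_sum_lip (K : ℕ) (u u' : ℝ) : ∑ j ∈ SK K, |tn j u - tn j u'| ≤ 4 * |u - u'| := by
  classical
  set T : Finset ℤ := {⌊u⌋, ⌊u⌋ + 1, ⌊u'⌋, ⌊u'⌋ + 1} with hT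
  have h1 : ∀ j ∈ SK K, |tn j u - tn j u'| ≤ if j ∈ T then |u - u'| else 0 := by
    intro j _
    split_ifs with h
    · exact tn_lip j u u'
    · have h2 : tn j u = 0 := by
        by_contra hne
        apply h
        rw [hT]
        rcases tn_support hne with h3 | h3 <;> simp [h3]
      have h4 : tn j u' = 0 := by
        by_contra hne
        apply h
        rw [hT]
        rcases tn_support hne with h3 | h3 <;> simp [h3]
      rw [h2, h4]; simp
  refine (Finset.sum_le_sum h1).trans ?_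
  rw [← Finset.sum_filter, Finset.sum_const, nsmul_eq_mul]
  refine mul_le_mul_of_nonneg_right ?_ (abs_nonneg _)
  have h2 : ((SK K).filter fun j => j ∈ T).card ≤ T.card :=
    Finset.card_le_card fun j hj => (Finset.mem_filter.mp hj).2
  have h3 : T.card ≤ 4 := Finset.card_le_four
  exact_mod_cast h2.trans h3

/-- one dimensional kernel -/
noncomputable def M1 (K : ℕ) (u u' : ℝ) : ℝ := ∑ j ∈ SK K, √(tn j u) * √(tn j u')

theorem M1_nonneg (K : ℕ) (u u' : ℝ) : 0 ≤ M1 K u u' :=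
  Finset.sum_nonneg fun j _ => by positivity

theorem M1_le (K : ℕ) (u u' : ℝ) : M1 K u u' ≤ 1 := by
  have h1 : ∀ j ∈ SK K, √(tn j u) * √(tn j u') ≤ (tn j u + tn j u') / 2 := by
    intro j _
    have h2 := Real.sq_sqrt (tn_nonneg j u)
    have h3 := Real.sq_sqrt (tn_nonneg j u')
    nlinarith [sq_nonneg (√(tn j u) - √(tn j u'))]
  refine (Finset.sum_le_sum h1).trans ?_
  rw [← Finset.sum_div, Finset.sum_add_distrib]
  have h2 := tn_sum_le K u
  have h3 := tn_sum_le K u'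
  linarith

theorem M1_ge (K : ℕ) {u u' : ℝ} (hu : |u| ≤ K) (hu' : |u'| ≤ K) : 1 - 2 * |u - u'| ≤ M1 K u u' := by
  have h1 : ∀ j ∈ SK K, (tn j u + tn j u' - |tn j u - tn j u'|) / 2 ≤ √(tn j u) * √(tn j u') := by
    intro j _
    have hx := tn_nonneg j u
    have hy := tn_nonneg j u'
    rw [← Real.sqrt_mul hx]
    apply Real.le_sqrt_of_sq_le
    rcases le_total (tn j u) (tn j u') with h | h
    · rw [abs_of_nonpos (by linarith)]
      nlinarith
    · rw [abs_of_nonneg (by linarith)]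
      nlinarith
  have h2 := Finset.sum_le_sum h1
  rw [← Finset.sum_div, Finset.sum_sub_distrib, Finset.sum_add_distrib, tn_sum_eq K hu,
    tn_sum_eq K hu'] at h2
  have h3 := tn_sum_lip K u u'
  unfold M1
  linarith

/-! ### two variables -/

/-- window function -/
noncomputable def al (s : ℝ) (p : ℤ × ℤ) (z : ℂ) : ℝ := √(tn p.1 (z.re / s)) * √(tn p.2 (z.im / s))

theorem al_nonneg (s : ℝ) (p : ℤ × ℤ) (z : ℂ) : 0 ≤ al s p z := by unfold al; positivity

theorem al_cont (s : ℝ) (p : ℤ × ℤ) : Continuous (al s p) := by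
  unfold al
  have h1 := tn_cont p.1
  have h2 := tn_cont p.2
  fun_prop

theorem al_sq (s : ℝ) (p : ℤ × ℤ) (z : ℂ) :
    al s p z ^ 2 = tn p.1 (z.re / s) * tn p.2 (z.im / s) := by
  unfold al
  rw [mul_pow, Real.sq_sqrt (tn_nonneg _ _), Real.sq_sqrt (tn_nonneg _ _)]

theorem al_sum_sq (K : ℕ) (s : ℝ) (z : ℂ) : ∑ p ∈ SK K ×ˢ SK K, al s p z ^ 2 ≤ 1 := by
  rw [Finset.sum_product]
  simp only [al_sq]
  simp only [← Finset.mul_sum]
  rw [← Finset.sum_mul]
  have h1 := tn_sum_le K (z.re / s)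
  have h2 := tn_sum_le K (z.im / s)
  have h3 : 0 ≤ ∑ j ∈ SK K, tn j (z.im / s) := Finset.sum_nonneg fun j _ => tn_nonneg _ _
  calc _ ≤ 1 * 1 := mul_le_mul h1 h2 h3 zero_le_one
    _ = 1 := one_mul 1

/-- center of a window -/
noncomputable def cw (s : ℝ) (p : ℤ × ℤ) : ℂ := ⟨s * p.1, s * p.2⟩

theorem al_loc {s : ℝ} (hs : 0 < s) (p : ℤ × ℤ) (z : ℂ) :
    (al s p z * ‖z - cw s p‖) ^ 2 ≤ (9 / 4 * s ^ 2) * al s p z ^ 2 := by
  rcases eq_or_ne (al s p z) 0 with h | h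
  · rw [h]; simp
  · have h1 : tn p.1 (z.re / s) ≠ 0 := by
      intro h2; apply h; unfold al; rw [h2]; simp
    have h2 : tn p.2 (z.im / s) ≠ 0 := by
      intro h2; apply h; unfold al; rw [h2]; simp
    have h3 : |z.re / s - p.1| < 1 := by
      by_contra hne; exact h1 (tn_zero (not_lt.mp hne))
    have h4 : |z.im / s - p.2| < 1 := by
      by_contra hne; exact h2 (tn_zero (not_lt.mp hne))
    have h5 : (z.re - s * p.1) ^ 2 ≤ s ^ 2 := by
      have h6 : z.re - s * p.1 = s * (z.re / s - p.1) := by field_simp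
      rw [h6, mul_pow]
      have h7 : (z.re / s - p.1) ^ 2 ≤ 1 := by rw [sq_le_one_iff_abs_le_one]; exact h3.le
      nlinarith [sq_nonneg s]
    have h6 : (z.im - s * p.2) ^ 2 ≤ s ^ 2 := by
      have h6 : z.im - s * p.2 = s * (z.im / s - p.2) := by field_simp
      rw [h6, mul_pow]
      have h7 : (z.im / s - p.2) ^ 2 ≤ 1 := by rw [sq_le_one_iff_abs_le_one]; exact h4.le
      nlinarith [sq_nonneg s]
    have h7 : ‖z - cw s p‖ ^ 2 ≤ 2 * s ^ 2 := by
      rw [← Complex.normSq_eq_norm_sq, Complex.normSq_apply]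
      simp only [cw, Complex.sub_re, Complex.sub_im]
      nlinarith
    rw [mul_pow, mul_comm]
    refine mul_le_mul_of_nonneg_right (h7.trans ?_) (sq_nonneg _)
    nlinarith [sq_nonneg s]

/-- the kernel at scale `s` -/
noncomputable def M2 (K : ℕ) (s : ℝ) (a b : ℂ) : ℝ := ∑ p ∈ SK K ×ˢ SK K, al s p a * al s p b

theorem M2_eq (K : ℕ) (s : ℝ) (a b : ℂ) :
    M2 K s a b = M1 K (a.re / s) (b.re / s) * M1 K (a.im / s) (b.im / s) := by
  unfold M2 M1
  rw [Finset.sum_product, Finset.sum_mul_sum]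
  refine Finset.sum_congr rfl fun j _ => Finset.sum_congr rfl fun j' _ => ?_
  unfold al
  ring

theorem M2_nonneg (K : ℕ) (s : ℝ) (a b : ℂ) : 0 ≤ M2 K s a b := by
  rw [M2_eq]; exact mul_nonneg (M1_nonneg _ _ _) (M1_nonneg _ _ _)

theorem M2_le (K : ℕ) (s : ℝ) (a b : ℂ) : M2 K s a b ≤ 1 := by
  rw [M2_eq]
  calc _ ≤ (1 : ℝ) * 1 := mul_le_mul (M1_le _ _ _) (M1_le _ _ _) (M1_nonneg _ _ _) zero_le_one
    _ = 1 := one_mul 1

theorem M2_ge (K : ℕ) {s : ℝ} (hs : 0 < s) {a b : ℂ} (ha : ‖a‖ ≤ K * s) (hb : ‖b‖ ≤ K * s) :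
    1 - 4 * ‖a - b‖ / s ≤ M2 K s a b := by
  have hre : ∀ z : ℂ, ‖z‖ ≤ K * s → |z.re / s| ≤ K := by
    intro z hz
    rw [abs_div, abs_of_pos hs, div_le_iff₀ hs]
    exact (Complex.abs_re_le_norm z).trans hz
  have him : ∀ z : ℂ, ‖z‖ ≤ K * s → |z.im / s| ≤ K := by
    intro z hz
    rw [abs_div, abs_of_pos hs, div_le_iff₀ hs]
    exact (Complex.abs_im_le_norm z).trans hz
  have h1 := M1_ge K (hre a ha) (hre b hb)
  have h2 := M1_ge K (him a ha) (him b hb)
  have h3 : |a.re / s - b.re / s| ≤ ‖a - b‖ / s := by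
    rw [← sub_div, abs_div, abs_of_pos hs]
    gcongr
    have := Complex.abs_re_le_norm (a - b)
    rwa [Complex.sub_re] at this
  have h4 : |a.im / s - b.im / s| ≤ ‖a - b‖ / s := by
    rw [← sub_div, abs_div, abs_of_pos hs]
    gcongr
    have := Complex.abs_im_le_norm (a - b)
    rwa [Complex.sub_im] at this
  have h5 := M1_le K (a.re / s) (b.re / s)
  have h6 := M1_le K (a.im / s) (b.im / s)
  rw [M2_eq]
  have h7 : 4 * ‖a - b‖ / s = 4 * (‖a - b‖ / s) := by ring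
  rw [h7]
  nlinarith [mul_nonneg (sub_nonneg.mpr h5) (sub_nonneg.mpr h6)]

/-- product of the kernels of the coarser levels -/
theorem prod_ge {L : ℕ} {x : ℕ → ℝ} {y : ℕ → ℝ} (h0 : ∀ j < L, 0 ≤ x j) (h1 : ∀ j < L, x j ≤ 1)
    (h2 : ∀ j < L, 1 - y j ≤ x j) :
    (0 ≤ ∏ j ∈ Finset.range L, x j) ∧ (∏ j ∈ Finset.range L, x j ≤ 1) ∧
      1 - ∑ j ∈ Finset.range L, y j ≤ ∏ j ∈ Finset.range L, x j := by
  induction L with
  | zero => simp
  | succ L ih =>
    obtain ⟨i1, i2, i3⟩ := ih (fun j hj => h0 j (by omega)) (fun j hj => h1 j (by omega))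
      (fun j hj => h2 j (by omega))
    rw [Finset.prod_range_succ, Finset.sum_range_succ]
    have a0 := h0 L (by omega)
    have a1 := h1 L (by omega)
    have a2 := h2 L (by omega)
    refine ⟨mul_nonneg i1 a0, ?_, ?_⟩
    · calc _ ≤ (1 : ℝ) * 1 := mul_le_mul i2 a1 a0 zero_le_one
        _ = 1 := one_mul 1
    · nlinarith [mul_nonneg (sub_nonneg.mpr i2) (sub_nonneg.mpr a1)]

/-! ### the data -/

section

variable {H : Type*} [NormedAddCommGroup H] [InnerProductSpace ℂ H] [CompleteSpace H]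
variable {ι : Type*} [Fintype ι]
variable {Ω : Type*} [TopologicalSpace Ω] [CompactSpace Ω]

/-- window function of the operator -/
noncomputable def be (b : C(Ω, ℂ)) (s : ℝ) (p : ℤ × ℤ) : C(Ω, ℂ) :=
  ⟨fun ω => ((al s p (b ω) : ℝ) : ℂ), by
    have := al_cont s p
    fun_prop⟩

/-- multiplier at scale `s` -/
noncomputable def ms (b : C(Ω, ℂ)) (K : ℕ) (s : ℝ) (a : ℂ) : C(Ω, ℂ) :=
  ∑ p ∈ SK K ×ˢ SK K, ((al s p a : ℝ) : ℂ) • be b s p

theorem ms_apply (b : C(Ω, ℂ)) (K : ℕ) (s : ℝ) (a : ℂ) (ω : Ω) :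
    ms b K s a ω = ((M2 K s a (b ω) : ℝ) : ℂ) := by
  unfold ms M2
  rw [ContinuousMap.coe_sum, Finset.sum_apply, Complex.ofReal_sum]
  refine Finset.sum_congr rfl fun p _ => ?_
  rw [ContinuousMap.smul_apply, smul_eq_mul, Complex.ofReal_mul]
  rfl

theorem be_sum (b : C(Ω, ℂ)) (K : ℕ) (s : ℝ) (ω : Ω) :
    ∑ p ∈ SK K ×ˢ SK K, ‖be b s p ω‖ ^ 2 ≤ 1 ^ 2 := by
  rw [one_pow]
  refine le_trans (le_of_eq ?_) (al_sum_sq K s (b ω))
  refine Finset.sum_congr rfl fun p _ => ?_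
  have : be b s p ω = ((al s p (b ω) : ℝ) : ℂ) := rfl
  rw [this, Complex.norm_real, Real.norm_eq_abs, sq_abs]

theorem al_sum (K : ℕ) (s : ℝ) (a : ℂ) :
    ∑ p ∈ SK K ×ˢ SK K, ‖((al s p a : ℝ) : ℂ)‖ ^ 2 ≤ 1 ^ 2 := by
  rw [one_pow]
  refine le_trans (le_of_eq ?_) (al_sum_sq K s a)
  refine Finset.sum_congr rfl fun p _ => ?_
  rw [Complex.norm_real, Real.norm_eq_abs, sq_abs]

/-- difference function of the row `i` -/
noncomputable def GG (b : C(Ω, ℂ)) (a : ι → ℂ) (i : ι) : C(Ω, ℂ) :=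
  star (ContinuousMap.const Ω (a i) - b)

theorem GG_apply (b : C(Ω, ℂ)) (a : ι → ℂ) (i : ι) (ω : Ω) :
    GG b a i ω = conj (a i - b ω) := rfl

theorem data (ψ : C(Ω, ℂ) →⋆ₐ[ℂ] (H →L[ℂ] H)) {e : ι → H} (he : Bes e 1) (b : C(Ω, ℂ))
    (a : ι → ℂ) (K : ℕ → ℕ) (s : ℕ → ℝ) (hs : ∀ l, 0 < s l) :
    Data ψ e (GG b a) (fun l i => ms b (K l) (s l) (a i)) (fun l => 3 * s l) where
  pos := fun l => by have := hs l; positivity
  contr := fun l v d hd hv => by
    have h := Bes.gram ψ (SK (K l) ×ˢ SK (K l)) hv (fun i p => ((al (s l) p (a i) : ℝ) : ℂ))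
      (fun p => be b (s l) p) (fun i => al_sum (K l) (s l) (a i)) (fun ω => be_sum b (K l) (s l) ω)
    rw [one_mul, one_mul] at h
    exact h
  real := fun l i => by
    ext ω
    rw [ContinuousMap.star_apply, ms_apply, RCLike.star_def, Complex.conj_ofReal]
  bd := fun l => by
    set σ := s l with hσ
    have hσ0 : 0 < σ := hs l
    set S := SK (K l) ×ˢ SK (K l) with hS
    -- first part
    have h1 := Bes.gram (A := 3 / 2 * σ) ψ S he
      (fun i p => ((al σ p (a i) : ℝ) : ℂ) * conj (a i - cw σ p))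
      (fun p => be b σ p) (fun i => by
        calc ∑ p ∈ S, ‖((al σ p (a i) : ℝ) : ℂ) * conj (a i - cw σ p)‖ ^ 2 ≤
              ∑ p ∈ S, (9 / 4 * σ ^ 2) * al σ p (a i) ^ 2 := by
              refine Finset.sum_le_sum fun p _ => ?_
              rw [norm_mul, Complex.norm_real, Real.norm_eq_abs, abs_of_nonneg (al_nonneg _ _ _),
                RCLike.norm_conj]
              exact al_loc hσ0 p (a i)
          _ ≤ (9 / 4 * σ ^ 2) * 1 := by
              rw [← Finset.mul_sum]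
              exact mul_le_mul_of_nonneg_left (al_sum_sq _ _ _) (by positivity)
          _ = (3 / 2 * σ) ^ 2 := by ring) (fun ω => be_sum b (K l) σ ω)
    have h2 := Bes.gram (B := 3 / 2 * σ) ψ S he
      (fun i p => ((al σ p (a i) : ℝ) : ℂ))
      (fun p => be b σ p * star (b - ContinuousMap.const Ω (cw σ p)))
      (fun i => al_sum (K l) σ (a i)) (fun ω => by
        calc ∑ p ∈ S, ‖(be b σ p * star (b - ContinuousMap.const Ω (cw σ p))) ω‖ ^ 2 ≤
              ∑ p ∈ S, (9 / 4 * σ ^ 2) * al σ p (b ω) ^ 2 := by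
              refine Finset.sum_le_sum fun p _ => ?_
              have e1 : (be b σ p * star (b - ContinuousMap.const Ω (cw σ p))) ω =
                  ((al σ p (b ω) : ℝ) : ℂ) * conj (b ω - cw σ p) := rfl
              rw [e1, norm_mul, Complex.norm_real, Real.norm_eq_abs,
                abs_of_nonneg (al_nonneg _ _ _), RCLike.norm_conj]
              exact al_loc hσ0 p (b ω)
          _ ≤ (9 / 4 * σ ^ 2) * 1 := by
              rw [← Finset.mul_sum]
              exact mul_le_mul_of_nonneg_left (al_sum_sq _ _ _) (by positivity)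
          _ = (3 / 2 * σ) ^ 2 := by ring)
    have h3 := h1.add h2.neg (by positivity) (by positivity)
    have h4 : 3 / 2 * σ * 1 * 1 + 1 * (3 / 2 * σ) * 1 = 3 * σ := by ring
    rw [h4] at h3
    have h5 : (fun i => ψ (ms b (K l) σ (a i) * GG b a i) (e i)) = fun i =>
        ψ (∑ p ∈ S, (((al σ p (a i) : ℝ) : ℂ) * conj (a i - cw σ p)) • be b σ p) (e i) +
        -ψ (∑ p ∈ S, ((al σ p (a i) : ℝ) : ℂ) •
          (be b σ p * star (b - ContinuousMap.const Ω (cw σ p)))) (e i) := by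
      funext i
      rw [← sub_eq_add_neg, ← _root_.sub_apply, ← map_sub]
      congr 2
      unfold ms
      rw [Finset.sum_mul, ← Finset.sum_sub_distrib]
      refine Finset.sum_congr rfl fun p _ => ?_
      ext ω
      simp only [ContinuousMap.mul_apply, ContinuousMap.smul_apply, ContinuousMap.sub_apply,
        ContinuousMap.star_apply, ContinuousMap.const_apply, smul_eq_mul, GG_apply,
        RCLike.star_def, map_sub]
      ring
    rw [h5]
    exact h3

theorem KK_apply (b : C(Ω, ℂ)) (a : ι → ℂ) (K : ℕ → ℕ) (s : ℕ → ℝ) (l : ℕ) (i : ι) (ω : Ω) :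
    KK (fun l i => ms b (K l) (s l) (a i)) l i ω =
      ((∏ j ∈ Finset.range (l + 1), M2 (K j) (s j) (a i) (b ω) : ℝ) : ℂ) := by
  unfold KK
  rw [ContinuousMap.coe_prod, Finset.prod_apply, Complex.ofReal_prod]
  exact Finset.prod_congr rfl fun j _ => ms_apply _ _ _ _ _

/-- dyadic scales: the product of the kernels is at least one half if `16 ‖a - b‖ ≤ s l` -/
theorem KK_ge {σ : ℝ} (hσ : 0 < σ) (K : ℕ → ℕ) {a b : ℂ} (l : ℕ)
    (ha : ∀ j, ‖a‖ ≤ K j * (σ / 2 ^ j)) (hb : ∀ j, ‖b‖ ≤ K j * (σ / 2 ^ j))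
    (hab : 16 * ‖a - b‖ ≤ σ / 2 ^ l) :
    1 / 2 ≤ ∏ j ∈ Finset.range (l + 1), M2 (K j) (σ / 2 ^ j) a b := by
  have h := (prod_ge (L := l + 1) (x := fun j => M2 (K j) (σ / 2 ^ j) a b)
    (y := fun j => 4 * ‖a - b‖ / (σ / 2 ^ j)) (fun j _ => M2_nonneg _ _ _ _)
    (fun j _ => M2_le _ _ _ _) (fun j _ => M2_ge _ (by positivity) (ha j) (hb j))).2.2
  refine le_trans ?_ h
  have h1 : ∑ j ∈ Finset.range (l + 1), 4 * ‖a - b‖ / (σ / 2 ^ j) =
      4 * ‖a - b‖ / σ * ∑ j ∈ Finset.range (l + 1), (2 : ℝ) ^ j := by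
    rw [Finset.mul_sum]
    refine Finset.sum_congr rfl fun j _ => ?_
    field_simp
  rw [h1, geom_sum_eq (by norm_num)]
  have h2 : (2 : ℝ) ^ (l + 1) = 2 * 2 ^ l := by ring
  have h3 : 16 * ‖a - b‖ * 2 ^ l ≤ σ := by rwa [le_div_iff₀ (by positivity)] at hab
  rw [h2]
  have h4 : 4 * ‖a - b‖ / σ * ((2 * 2 ^ l - 1) / (2 - 1)) ≤ 1 / 2 := by
    have h5 : (2 * (2 : ℝ) ^ l - 1) / (2 - 1) = 2 * 2 ^ l - 1 := by norm_num
    rw [h5, div_mul_eq_mul_div, div_le_iff₀ hσ]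
    nlinarith [norm_nonneg (a - b)]
  linarith

end

end Pool.Var
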