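import Pool.Agent.Work.LipGraph.Var.V2

/-!
# VAR: the estimate with radii
-/

set_option autoImplicit false
set_option linter.unusedSectionVars false

open scoped BigOperators InnerProductSpace ComplexConjugate

namespace Pool.Var

section

variable {H : Type*} [NormedAddCommGroup H] [InnerProductSpace ℂ H] [CompleteSpace H]
variable {Ω : Type*} [TopologicalSpace Ω] [CompactSpace Ω]

/-- real functions as complex functions -/
noncomputable def cR (g : C(Ω, ℝ)) : C(Ω, ℂ) := ⟨fun ω => ((g ω : ℝ) : ℂ), by fun_prop⟩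

theorem cR_apply (g : C(Ω, ℝ)) (ω : Ω) : cR g ω = ((g ω : ℝ) : ℂ) := rfl

/-- square of the modulus -/
noncomputable def nsq (F : C(Ω, ℂ)) : C(Ω, ℝ) := ⟨fun ω => ‖F ω‖ ^ 2, by fun_prop⟩

theorem nsq_apply (F : C(Ω, ℂ)) (ω : Ω) : nsq F ω = ‖F ω‖ ^ 2 := rfl

/-- quadratic form of a real function of the operator -/
noncomputable def qf (ψ : C(Ω, ℂ) →⋆ₐ[ℂ] (H →L[ℂ] H)) (g : C(Ω, ℝ)) (x : H) : ℝ :=
  (inner ℂ x (ψ (cR g) x)).re

variable (ψ : C(Ω, ℂ) →⋆ₐ[ℂ] (H →L[ℂ] H))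

theorem qf_add (g g' : C(Ω, ℝ)) (x : H) : qf ψ (g + g') x = qf ψ g x + qf ψ g' x := by
  unfold qf
  have h : cR (g + g') = cR g + cR g' := by
    ext ω
    simp [cR_apply]
  rw [h, map_add, _root_.add_apply, inner_add_right, Complex.add_re]

theorem qf_zero (x : H) : qf ψ 0 x = 0 := by
  unfold qf
  have h : cR (0 : C(Ω, ℝ)) = 0 := by
    ext ω
    simp [cR_apply]
  rw [h, map_zero]; simp

theorem qf_smul (t : ℝ) (g : C(Ω, ℝ)) (x : H) : qf ψ (t • g) x = t * qf ψ g x := by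
  unfold qf
  have h : cR (t • g) = (t : ℂ) • cR g := by
    ext ω
    simp [cR_apply]
  rw [h, map_smul, _root_.smul_apply, inner_smul_right, Complex.re_ofReal_mul]

theorem qf_sum {κ : Type*} (s : Finset κ) (g : κ → C(Ω, ℝ)) (x : H) :
    qf ψ (∑ k ∈ s, g k) x = ∑ k ∈ s, qf ψ (g k) x := by
  classical
  induction s using Finset.induction_on with
  | empty => simp [qf_zero]
  | insert k s hk ih => rw [Finset.sum_insert hk, Finset.sum_insert hk, qf_add, ih]

theorem qf_nsq (F : C(Ω, ℂ)) (x : H) : qf ψ (nsq F) x = ‖ψ F x‖ ^ 2 := by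
  unfold qf
  have h : cR (nsq F) = star F * F := by
    ext ω
    rw [cR_apply, nsq_apply, ContinuousMap.mul_apply, ContinuousMap.star_apply, RCLike.star_def,
      mul_comm, Complex.mul_conj, Complex.normSq_eq_norm_sq]
  rw [h, map_mul, mul_apply_eq_comp, ← psi_adj, inner_self_eq_norm_sq_to_K]
  norm_cast

theorem qf_nonneg {g : C(Ω, ℝ)} (hg : ∀ ω, 0 ≤ g ω) (x : H) : 0 ≤ qf ψ g x := by
  have h : g = nsq (cR ⟨fun ω => √(g ω), by fun_prop⟩) := by
    ext ω
    rw [nsq_apply, cR_apply, Complex.norm_real, Real.norm_eq_abs, sq_abs]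
    exact (Real.sq_sqrt (hg ω)).symm
  rw [h, qf_nsq]
  positivity

theorem qf_mono {g g' : C(Ω, ℝ)} (hg : ∀ ω, g ω ≤ g' ω) (x : H) : qf ψ g x ≤ qf ψ g' x := by
  have h : g' = g + (g' - g) := by abel
  rw [h, qf_add]
  have := qf_nonneg ψ (g := g' - g) (fun ω => by
    rw [ContinuousMap.sub_apply]; linarith [hg ω]) x
  linarith

theorem qf_le {g : C(Ω, ℝ)} (hg : ∀ ω, g ω ≤ 1) (x : H) : qf ψ g x ≤ ‖x‖ ^ 2 := by
  have h1 := qf_mono ψ (g := g) (g' := nsq 1) (fun ω => by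
    rw [nsq_apply]; simpa using hg ω) x
  rw [qf_nsq] at h1
  simpa using h1

end

/-- the pointwise inequality -/
theorem pointwise {σ r d : ℝ} {j k : ℕ} (hr : 0 < r) (h1 : (2 : ℝ) ^ j ≤ σ / r)
    (h2 : σ / r < 2 ^ (j + 1)) (hd1 : 2 ^ k ≤ d / r) (hd2 : d / r < 2 ^ (k + 1))
    (hσ : 64 * d ≤ σ) : k + 5 ≤ j ∧ 16 * d ≤ σ / 2 ^ (j - k - 5) ∧
      ∀ P : ℝ, 1 / 2 ≤ P → r / 3072 ≤
        (1 / 2) ^ k * ((1 / (4 * (3 * (σ / 2 ^ (j - k - 5))))) * (P * d) ^ 2) := by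
  have hσ0 : 0 < σ := by
    have : 0 < σ / r := lt_of_lt_of_le (by positivity) h1
    rwa [div_pos_iff_of_pos_right hr] at this
  have hd0 : 0 < d := by
    have : 0 < d / r := lt_of_lt_of_le (by positivity) hd1
    rwa [div_pos_iff_of_pos_right hr] at this
  rw [le_div_iff₀ hr] at h1 hd1
  rw [div_lt_iff₀ hr] at h2 hd2
  have h3 : k + 5 ≤ j := by
    have h4 : (2 : ℝ) ^ (k + 6) < 2 ^ (j + 1) := by
      have h5 : (2 : ℝ) ^ (k + 6) * r < 2 ^ (j + 1) * r := by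
        have : (2 : ℝ) ^ (k + 6) = 64 * 2 ^ k := by ring
        rw [this]
        nlinarith
      exact lt_of_mul_lt_mul_right h5 hr.le
    have h5 := (pow_lt_pow_iff_right₀ (by norm_num : (1 : ℝ) < 2)).mp h4
    omega
  obtain ⟨m, rfl⟩ := Nat.exists_eq_add_of_le h3
  have h6 : k + 5 + m - k - 5 = m := by omega
  rw [h6]
  refine ⟨h3, ?_, ?_⟩
  · rw [le_div_iff₀ (by positivity)]
    have h7 : (2 : ℝ) ^ (k + 5 + m) = 32 * (2 ^ k * 2 ^ m) := by ring
    have h8 : (2 : ℝ) ^ (k + 1) = 2 * 2 ^ k := by ring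
    rw [h7] at h1
    rw [h8] at hd2
    have h9 : 0 < (2 : ℝ) ^ m := by positivity
    nlinarith
  · intro P hP
    have h7 : (2 : ℝ) ^ (k + 5 + m + 1) = 64 * (2 ^ k * 2 ^ m) := by ring
    rw [h7] at h2
    set A : ℝ := 2 ^ k with hA
    set B : ℝ := 2 ^ m with hB
    have hA0 : 0 < A := by positivity
    have hB0 : 0 < B := by positivity
    have h8 : (1 / 2 : ℝ) ^ k = 1 / A := by rw [hA, one_div_pow]
    rw [h8]
    have h9 : 1 / A * (1 / (4 * (3 * (σ / B))) * (P * d) ^ 2) = B * (P * d) ^ 2 / (12 * A * σ) := by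
      field_simp; ring
    rw [h9, le_div_iff₀ (by positivity)]
    have h10 : (1 / 2 * (A * r)) ^ 2 ≤ (P * d) ^ 2 := by
      apply pow_le_pow_left₀ (by positivity)
      exact mul_le_mul hP hd1 (by positivity) (by linarith)
    calc r / 3072 * (12 * A * σ) ≤ r / 3072 * (12 * A * (64 * (A * B) * r)) := by gcongr
      _ = B * (1 / 2 * (A * r)) ^ 2 := by ring
      _ ≤ B * (P * d) ^ 2 := by gcongr

section

variable {H : Type*} [NormedAddCommGroup H] [InnerProductSpace ℂ H] [CompleteSpace H]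
variable {ι : Type*} [Fintype ι]
variable {Ω : Type*} [TopologicalSpace Ω] [CompactSpace Ω]

/-- **VAR with radii** -/
theorem wop (ψ : C(Ω, ℂ) →⋆ₐ[ℂ] (H →L[ℂ] H)) {e : ι → H} (he : Bes e 1) (b : C(Ω, ℂ))
    (a : ι → ℂ) {M : ℝ}
    (hM : ∀ v : ι → H, Bes v 1 → ∑ i, (inner ℂ (ψ (GG b a i) (e i)) (v i)).re ≤ M)
    (r : ι → ℝ) (hr : ∀ i, 0 ≤ r i) (h : ι → C(Ω, ℝ)) (h1 : ∀ i ω, h i ω ≤ 1)
    (h0 : ∀ i ω, ‖a i - b ω‖ < r i → h i ω ≤ 0) :
    ∑ i, r i * qf ψ (h i) (e i) ≤ 6144 * M := by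
  classical
  have hM0 : 0 ≤ M := by
    have := hM (fun _ => 0) Bes.zero
    simpa using this
  -- bounds
  obtain ⟨R, hR0, hRa, hRb⟩ : ∃ R : ℝ, 0 < R ∧ (∀ i, ‖a i‖ ≤ R) ∧ ∀ ω, ‖b ω‖ ≤ R := by
    refine ⟨∑ i, ‖a i‖ + ‖b‖ + 1, by positivity, fun i => ?_, fun ω => ?_⟩
    · have h2 := Finset.single_le_sum (f := fun i => ‖a i‖) (fun i _ => norm_nonneg _)
        (Finset.mem_univ i)
      have h3 := norm_nonneg b
      linarith
    · have h2 := b.norm_coe_le_norm ω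
      have h3 : 0 ≤ ∑ i, ‖a i‖ := Finset.sum_nonneg fun i _ => norm_nonneg _
      linarith
  set σ : ℝ := 128 * R + ∑ i, r i with hσdef
  have hσ : 0 < σ := by
    have : 0 ≤ ∑ i, r i := Finset.sum_nonneg fun i _ => hr i
    positivity
  have hσr : ∀ i, r i ≤ σ := fun i => by
    have h2 := Finset.single_le_sum (f := r) (fun i _ => hr i) (Finset.mem_univ i)
    rw [hσdef]; linarith
  have hσd : ∀ i ω, 64 * ‖a i - b ω‖ ≤ σ := fun i ω => by
    have h2 := norm_sub_le (a i) (b ω)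
    have h3 := hRa i
    have h4 := hRb ω
    have : 0 ≤ ∑ i, r i := Finset.sum_nonneg fun i _ => hr i
    rw [hσdef]; linarith
  -- the levels
  have hj : ∀ i, ∃ j : ℕ, 0 < r i → (2 : ℝ) ^ j ≤ σ / r i ∧ σ / r i < 2 ^ (j + 1) := by
    intro i
    by_cases hri : 0 < r i
    · obtain ⟨n, hn1, hn2⟩ := exists_nat_pow_near (x := σ / r i) (y := 2)
        (by rw [le_div_iff₀ hri, one_mul]; exact hσr i) (by norm_num)
      exact ⟨n, fun _ => ⟨hn1, hn2⟩⟩
    · exact ⟨0, fun h => absurd h hri⟩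
  choose j hj using hj
  set N : ℕ := (∑ i, j i) + 1 with hN
  have hjN : ∀ i, j i < N := fun i => by
    have h2 := Finset.single_le_sum (f := j) (fun i _ => Nat.zero_le _) (Finset.mem_univ i)
    rw [hN]; omega
  set lev : ℕ → ι → ℕ := fun k i => if k + 5 ≤ j i then j i - k - 5 else N with hlev
  set K : ℕ → ℕ := fun l => ⌈R * 2 ^ l / σ⌉₊ with hK
  have hKR : ∀ l, R ≤ K l * (σ / 2 ^ l) := by
    intro l
    have h2 : R * 2 ^ l / σ ≤ K l := Nat.le_ceil _
    rw [div_le_iff₀ hσ] at h2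
    rw [mul_div_assoc', le_div_iff₀ (by positivity)]
    exact h2
  set m : ℕ → ι → C(Ω, ℂ) := fun l i => ms b (K l) (σ / 2 ^ l) (a i) with hm
  have hdata : Data ψ e (GG b a) m (fun l => 3 * (σ / 2 ^ l)) :=
    data ψ he b a K (fun l => σ / 2 ^ l) (fun l => by positivity)
  -- the function
  set Γ : ι → C(Ω, ℝ) := fun i => ∑ k ∈ Finset.range N, (1 / 2 : ℝ) ^ k •
    (if lev k i < N then (1 / (4 * (3 * (σ / 2 ^ (lev k i))))) •
      nsq (KK m (lev k i) i * GG b a i) else 0) with hΓ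
  have hΓnn : ∀ i ω (k : ℕ), 0 ≤ ((1 / 2 : ℝ) ^ k •
    (if lev k i < N then (1 / (4 * (3 * (σ / 2 ^ (lev k i))))) •
      nsq (KK m (lev k i) i * GG b a i) else 0)) ω := by
    intro i ω k
    rw [ContinuousMap.smul_apply, smul_eq_mul]
    refine mul_nonneg (by positivity) ?_
    split_ifs
    · rw [ContinuousMap.smul_apply, smul_eq_mul, nsq_apply]; positivity
    · simp
  have hpt : ∀ i ω, ((r i / 3072) • h i) ω ≤ Γ i ω := by
    intro i ω
    rw [ContinuousMap.smul_apply, smul_eq_mul]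
    simp only [hΓ]
    rw [ContinuousMap.coe_sum, Finset.sum_apply]
    have hs0 : 0 ≤ ∑ k ∈ Finset.range N, ((1 / 2 : ℝ) ^ k •
      (if lev k i < N then (1 / (4 * (3 * (σ / 2 ^ (lev k i))))) •
      nsq (KK m (lev k i) i * GG b a i) else 0)) ω := Finset.sum_nonneg fun k _ => hΓnn i ω k
    rcases (hr i).eq_or_lt with hri | hri
    · rw [← hri, zero_div, zero_mul]; exact hs0
    by_cases hd : ‖a i - b ω‖ < r i
    · refine le_trans ?_ hs0
      exact mul_nonpos_of_nonneg_of_nonpos (by positivity) (h0 i ω hd)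
    push Not at hd
    obtain ⟨k, hk1, hk2⟩ := exists_nat_pow_near (x := ‖a i - b ω‖ / r i) (y := 2)
      (by rw [le_div_iff₀ hri, one_mul]; exact hd) (by norm_num)
    obtain ⟨p1, p2, p3⟩ := pointwise hri (hj i hri).1 (hj i hri).2 hk1 hk2 (hσd i ω)
    have hlk : lev k i = j i - k - 5 := by simp only [hlev]; rw [if_pos p1]
    have hji := hjN i
    have h5 := Finset.single_le_sum (f := fun k => ((1 / 2 : ℝ) ^ k •
      (if lev k i < N then (1 / (4 * (3 * (σ / 2 ^ (lev k i))))) •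
      nsq (KK m (lev k i) i * GG b a i) else 0)) ω) (fun k _ => hΓnn i ω k)
      (Finset.mem_range.mpr (show k < N by omega))
    refine le_trans ?_ h5
    rw [ContinuousMap.smul_apply, smul_eq_mul, hlk, if_pos (by omega), ContinuousMap.smul_apply,
      smul_eq_mul, nsq_apply, ContinuousMap.mul_apply, norm_mul, GG_apply, RCLike.norm_conj]
    have h6 := KK_apply b a K (fun l => σ / 2 ^ l) (j i - k - 5) i ω
    have h7 := KK_ge hσ K (a := a i) (b := b ω) (j i - k - 5) (fun l => (hRa i).trans (hKR l))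
      (fun l => (hRb ω).trans (hKR l)) p2
    simp only [hm]
    rw [h6, Complex.norm_real, Real.norm_eq_abs, abs_of_nonneg (by linarith)]
    refine le_trans ?_ (p3 _ h7)
    calc r i / 3072 * h i ω ≤ r i / 3072 * 1 := by
          have := h1 i ω
          gcongr
      _ = _ := mul_one _
  -- integrate
  have hint : ∀ i, r i / 3072 * qf ψ (h i) (e i) ≤ ∑ k ∈ Finset.range N, (1 / 2 : ℝ) ^ k *
      (if lev k i < N then (1 / (4 * (3 * (σ / 2 ^ (lev k i))))) *
        ‖TT ψ e (GG b a) m (lev k i) i‖ ^ 2 else 0) := by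
    intro i
    rw [← qf_smul]
    refine (qf_mono ψ (hpt i) (e i)).trans (le_of_eq ?_)
    simp only [hΓ]
    rw [qf_sum]
    refine Finset.sum_congr rfl fun k _ => ?_
    rw [qf_smul]
    congr 1
    split_ifs
    · rw [qf_smul, qf_nsq]; rfl
    · rw [qf_zero]
  have hsum : ∑ i, r i / 3072 * qf ψ (h i) (e i) ≤ ∑ k ∈ Finset.range N, (1 / 2 : ℝ) ^ k * M := by
    refine (Finset.sum_le_sum fun i _ => hint i).trans ?_
    rw [Finset.sum_comm]
    refine Finset.sum_le_sum fun k _ => ?_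
    rw [← Finset.mul_sum]
    refine mul_le_mul_of_nonneg_left ?_ (by positivity)
    exact hdata.var hM (lev k) N
  have hgeom : ∑ k ∈ Finset.range N, (1 / 2 : ℝ) ^ k * M ≤ 2 * M := by
    rw [← Finset.sum_mul]
    refine mul_le_mul_of_nonneg_right ?_ hM0
    rw [geom_sum_eq (by norm_num)]
    have : (0 : ℝ) < (1 / 2) ^ N := by positivity
    rw [div_le_iff_of_neg (by norm_num)]
    linarith
  have hfin : ∑ i, r i / 3072 * qf ψ (h i) (e i) = (∑ i, r i * qf ψ (h i) (e i)) / 3072 := by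
    rw [Finset.sum_div]
    exact Finset.sum_congr rfl fun i _ => by ring
  rw [hfin] at hsum
  have := hsum.trans hgeom
  linarith

end

end Pool.Var
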