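import Pool.Agent.Work.LipGraph.Var.V3

/-!
# VAR: eigenvectors of one operator against the spectrum of the other one
-/

set_option autoImplicit false
set_option linter.unusedSectionVars false

open scoped BigOperators InnerProductSpace ComplexConjugate

namespace Pool.Var

section

variable {H : Type*} [NormedAddCommGroup H] [InnerProductSpace ℂ H] [CompleteSpace H]
variable {ι : Type*} [Fintype ι]

/-- an orthonormal family is a Bessel family -/
theorem bes_orthonormal {e : ι → H} (he : Orthonormal ℂ e) : Bes e 1 := by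
  intro z
  rw [one_pow, one_mul]
  exact he.sum_inner_products_le z (s := Finset.univ)

/-- adjoint on eigenvectors of a normal operator -/
theorem star_eig {A : H →L[ℂ] H} (hA : IsStarNormal A) {x : H} {a : ℂ} (hx : A x = a • x) :
    (star A) x = conj a • x := by
  have h1 : IsStarNormal (A - algebraMap ℂ (H →L[ℂ] H) a) := by
    constructor
    have h2 : star (A - algebraMap ℂ (H →L[ℂ] H) a) = star A - algebraMap ℂ (H →L[ℂ] H) (conj a) := by
      rw [star_sub, ← algebraMap_star_comm]; rfl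
    rw [h2]
    refine Commute.sub_left (Commute.sub_right hA.star_comm_self ?_) (Commute.sub_right ?_ ?_)
    · exact (Algebra.commute_algebraMap_right _ _)
    · exact (Algebra.commute_algebraMap_left _ _)
    · exact (Algebra.commute_algebraMap_left _ _)
  have h3 : (A - algebraMap ℂ (H →L[ℂ] H) a) x = 0 := by
    rw [_root_.sub_apply, hx, Algebra.algebraMap_eq_smul_one, _root_.smul_apply,
      one_apply_eq_self, sub_self]
  have h4 := (ContinuousLinearMap.IsStarNormal.adjoint_apply_eq_zero_iff h1 x).mpr h3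
  have h5 : ContinuousLinearMap.adjoint (A - algebraMap ℂ (H →L[ℂ] H) a) =
      star A - algebraMap ℂ (H →L[ℂ] H) (conj a) := by
    rw [← ContinuousLinearMap.star_eq_adjoint, star_sub, ← algebraMap_star_comm]; rfl
  rw [h5, _root_.sub_apply, Algebra.algebraMap_eq_smul_one, _root_.smul_apply,
      one_apply_eq_self, sub_eq_zero] at h4
  exact h4

/-- the identity function of the spectrum -/
noncomputable def bB (B : H →L[ℂ] H) : C(spectrum ℂ B, ℂ) :=
  (ContinuousMap.id ℂ).restrict (spectrum ℂ B)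

theorem bB_apply (B : H →L[ℂ] H) (ω : spectrum ℂ B) : bB B ω = ω := rfl

theorem psi_GG {B : H →L[ℂ] H} (hB : IsStarNormal B) {A : H →L[ℂ] H} (hA : IsStarNormal A)
    {e : ι → H} {a : ι → ℂ} (hae : ∀ i, A (e i) = a i • e i) (i : ι) :
    cfcHom hB (GG (bB B) a i) (e i) = (star (A - B)) (e i) := by
  unfold GG
  rw [map_star, map_sub, star_sub, star_sub, _root_.sub_apply, _root_.sub_apply]
  have h1 : cfcHom hB (ContinuousMap.const _ (a i)) = algebraMap ℂ (H →L[ℂ] H) (a i) := by
    have h2 : (ContinuousMap.const (spectrum ℂ B) (a i) : C(spectrum ℂ B, ℂ)) =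
      algebraMap ℂ _ (a i) := rfl
    rw [h2, AlgHomClass.commutes]
  have h3 : cfcHom hB (bB B) = B := cfcHom_id hB
  rw [h1, h3, star_eig hA (hae i), ← algebraMap_star_comm, Algebra.algebraMap_eq_smul_one,
    _root_.smul_apply, one_apply_eq_self]
  rfl

/-- trace duality for a nuclear operator and two Bessel families -/
theorem nuclear_pair {D : H →L[ℂ] H} {x y : ℕ → H} (hs : Summable fun k => ‖x k‖ * ‖y k‖)
    (hD : ∀ z, HasSum (fun k => inner ℂ (y k) z • x k) (D z)) {e v : ι → H} (he : Bes e 1)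
    (hv : Bes v 1) :
    ∑ i, (inner ℂ ((star D) (e i)) (v i)).re ≤ ∑' k, ‖x k‖ * ‖y k‖ := by
  have h1 : ∀ i, HasSum (fun k => (inner ℂ (y k) (v i) * inner ℂ (e i) (x k)).re)
      (inner ℂ ((star D) (e i)) (v i)).re := by
    intro i
    have h2 := hD (v i)
    have h3 : HasSum (fun k => inner ℂ (e i) (inner ℂ (y k) (v i) • x k))
        (inner ℂ (e i) (D (v i))) := h2.mapL (innerSL ℂ (e i))
    have h4 : inner ℂ ((star D) (e i)) (v i) = inner ℂ (e i) (D (v i)) := by
      rw [ContinuousLinearMap.star_eq_adjoint, ContinuousLinearMap.adjoint_inner_left]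
    rw [h4]
    have h5 := Complex.hasSum_re h3
    refine h5.congr_fun ?_ |> id
    intro k
    rw [inner_smul_right]
  have h2 : HasSum (fun k => ∑ i, (inner ℂ (y k) (v i) * inner ℂ (e i) (x k)).re)
      (∑ i, (inner ℂ ((star D) (e i)) (v i)).re) := hasSum_sum fun i _ => h1 i
  refine hasSum_le (fun k => ?_) h2 hs.hasSum
  calc ∑ i, (inner ℂ (y k) (v i) * inner ℂ (e i) (x k)).re ≤
        ∑ i, ‖inner ℂ (v i) (y k)‖ * ‖inner ℂ (e i) (x k)‖ := by
        refine Finset.sum_le_sum fun i _ => (Complex.re_le_norm _).trans ?_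
        rw [norm_mul, norm_inner_symm (y k)]
    _ ≤ 1 * 1 * (‖y k‖ * ‖x k‖) := Bes.pair hv he zero_le_one zero_le_one _ _
    _ = ‖x k‖ * ‖y k‖ := by ring

/-- **VAR for operators**: `A`, `B` bounded normal, `e i` orthonormal eigenvectors of `A` -/
theorem var_op {A B D : H →L[ℂ] H} (hA : IsStarNormal A) (hB : IsStarNormal B)
    (hAB : D = A - B) {x y : ℕ → H} (hs : Summable fun k => ‖x k‖ * ‖y k‖)
    (hD : ∀ z, HasSum (fun k => inner ℂ (y k) z • x k) (D z)) {e : ι → H}
    (he : Orthonormal ℂ e) {a : ι → ℂ} (hae : ∀ i, A (e i) = a i • e i)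
    (r : ι → ℝ) (hr : ∀ i, 0 ≤ r i) (h : ι → C(spectrum ℂ B, ℝ)) (h1 : ∀ i ω, h i ω ≤ 1)
    (h0 : ∀ i (ω : spectrum ℂ B), ‖a i - ω‖ < r i → h i ω ≤ 0) :
    ∑ i, r i * qf (cfcHom hB) (h i) (e i) ≤ 6144 * ∑' k, ‖x k‖ * ‖y k‖ := by
  refine wop (cfcHom hB) (bes_orthonormal he) (bB B) a (fun v hv => ?_) r hr h h1 h0
  have h2 := nuclear_pair hs hD (bes_orthonormal he) hv
  refine le_trans (le_of_eq ?_) h2
  refine Finset.sum_congr rfl fun i _ => ?_
  rw [psi_GG hB hA hae, hAB]

/-- **HALF**: the distances of the eigenvalues of `A` to the spectrum of `B` -/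
theorem half {A B D : H →L[ℂ] H} (hA : IsStarNormal A) (hB : IsStarNormal B)
    (hAB : D = A - B) {x y : ℕ → H} (hs : Summable fun k => ‖x k‖ * ‖y k‖)
    (hD : ∀ z, HasSum (fun k => inner ℂ (y k) z • x k) (D z)) {e : ι → H}
    (he : Orthonormal ℂ e) {a : ι → ℂ} (hae : ∀ i, A (e i) = a i • e i) :
    ∑ i, Metric.infDist (a i) (spectrum ℂ B) ≤ 6144 * ∑' k, ‖x k‖ * ‖y k‖ := by
  have h := var_op hA hB hAB hs hD he hae (fun i => Metric.infDist (a i) (spectrum ℂ B))
    (fun i => Metric.infDist_nonneg) (fun _ => nsq 1) (fun i ω => by simp [nsq_apply])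
    (fun i ω hω => by
      exfalso
      have h2 := Metric.infDist_le_dist_of_mem (x := a i) ω.2
      rw [dist_eq_norm] at h2
      linarith)
  refine le_trans (le_of_eq ?_) h
  refine Finset.sum_congr rfl fun i _ => ?_
  rw [qf_nsq, map_one, one_apply_eq_self, he.1 i]
  ring

end

end Pool.Var
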