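import Pool.Agent.Work.LipGraph.Var.V4
import Pool.Agent.Work.PathNormal.A

/-!
# VAR: functional calculus on a common compact set
-/

set_option autoImplicit false
set_option linter.unusedSectionVars false

open scoped BigOperators InnerProductSpace ComplexConjugate Topology
open Filter

namespace Pool.Var

universe v

variable {H : Type v} [NormedAddCommGroup H] [InnerProductSpace ℂ H] [CompleteSpace H]

/-- functional calculus on a compact set containing the spectrum -/
noncomputable def Phi {A : H →L[ℂ] H} (hA : IsStarNormal A) {s : Set ℂ} (hs : spectrum ℂ A ⊆ s) :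
    C(s, ℂ) →⋆ₐ[ℂ] (H →L[ℂ] H) :=
  (cfcHom hA).comp (ContinuousMap.compStarAlgHom' ℂ ℂ ⟨Set.inclusion hs, continuous_inclusion hs⟩)

section

variable {A : H →L[ℂ] H} (hA : IsStarNormal A) {s : Set ℂ} (hs : spectrum ℂ A ⊆ s)

theorem Phi_id : Phi hA hs ((ContinuousMap.id ℂ).restrict s) = A := cfcHom_id hA

theorem Phi_const (r : ℂ) : Phi hA hs (ContinuousMap.const s r) = algebraMap ℂ _ r := by
  have h2 : (ContinuousMap.const s r : C(s, ℂ)) = algebraMap ℂ _ r := rfl
  rw [h2, AlgHomClass.commutes]

theorem Phi_cont [CompactSpace s] : Continuous (Phi hA hs) := by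
  have h : Continuous (ContinuousMap.compStarAlgHom' ℂ ℂ
    (⟨Set.inclusion hs, continuous_inclusion hs⟩ : C(spectrum ℂ A, s))) :=
    ContinuousMap.continuous_precomp _
  exact (cfcHom_continuous hA).comp h

theorem Phi_cfc {f : ℂ → ℂ} (hf : Continuous f) :
    Phi hA hs ⟨fun z => f z, by fun_prop⟩ = cfc f A := by
  rw [cfc_apply f A hA hf.continuousOn]
  rfl

end

/-- differences of continuous functions are compact -/
theorem compact_Phi {A B : H →L[ℂ] H} (hA : IsStarNormal A) (hB : IsStarNormal B) {s : Set ℂ}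
    [CompactSpace s] (hsA : spectrum ℂ A ⊆ s) (hsB : spectrum ℂ B ⊆ s)
    (h : IsCompactOperator (A - B)) (h' : IsCompactOperator (star A - star B)) (f : C(s, ℂ)) :
    IsCompactOperator (Phi hA hsA f - Phi hB hsB f) := by
  induction f using ContinuousMap.induction_on_of_compact with
  | const r =>
    rw [Phi_const, Phi_const, sub_self]
    exact isCompactOperator_zero
  | id => rwa [Phi_id, Phi_id]
  | star_id => rwa [map_star, map_star, Phi_id, Phi_id]
  | add f g hf hg =>
    rw [map_add, map_add]
    have e : Phi hA hsA f + Phi hA hsA g - (Phi hB hsB f + Phi hB hsB g) =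
      (Phi hA hsA f - Phi hB hsB f) + (Phi hA hsA g - Phi hB hsB g) := by abel
    rw [e]
    exact hf.add hg
  | mul f g hf hg =>
    rw [map_mul, map_mul]
    have e : Phi hA hsA f * Phi hA hsA g - Phi hB hsB f * Phi hB hsB g =
      Phi hA hsA f * (Phi hA hsA g - Phi hB hsB g) +
        (Phi hA hsA f - Phi hB hsB f) * Phi hB hsB g := by noncomm_ring
    rw [e]
    exact (hg.clm_comp (Phi hA hsA f)).add (hf.comp_clm (Phi hB hsB g))
  | frequently f hf =>
    have hc : IsClosed {f : C(s, ℂ) | IsCompactOperator (Phi hA hsA f - Phi hB hsB f)} := by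
      have h1 : Continuous fun f : C(s, ℂ) => Phi hA hsA f - Phi hB hsB f :=
        (Phi_cont hA hsA).sub (Phi_cont hB hsB)
      exact (isClosed_setOfPred_isCompactOperator (𝕜₁ := ℂ) (𝕜₂ := ℂ) (σ₁₂ := RingHom.id ℂ)
        (M₁ := H) (M₂ := H)).preimage h1
    have h9 := mem_closure_iff_frequently.mpr hf
    exact hc.closure_subset h9

theorem compact_cfc {A B : H →L[ℂ] H} (hA : IsStarNormal A) (hB : IsStarNormal B)
    (h : IsCompactOperator (A - B)) (h' : IsCompactOperator (star A - star B)) {f : ℂ → ℂ}
    (hf : Continuous f) : IsCompactOperator (cfc f A - cfc f B) := by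
  have hcomp : IsCompact (spectrum ℂ A ∪ spectrum ℂ B) :=
    (spectrum.isCompact A).union (spectrum.isCompact B)
  have : CompactSpace (spectrum ℂ A ∪ spectrum ℂ B : Set ℂ) := isCompact_iff_compactSpace.mp hcomp
  have h1 := compact_Phi hA hB (s := spectrum ℂ A ∪ spectrum ℂ B) Set.subset_union_left
    Set.subset_union_right h h' ⟨fun z => f z, by fun_prop⟩
  rwa [Phi_cfc hA _ hf, Phi_cfc hB _ hf] at h1

/-- functions on eigenvectors -/
theorem Phi_eig {A : H →L[ℂ] H} (hA : IsStarNormal A) {s : Set ℂ} [CompactSpace s]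
    (hs : spectrum ℂ A ⊆ s) {x : H} {a : ℂ} (ha : a ∈ s) (hx : A x = a • x) (f : C(s, ℂ)) :
    Phi hA hs f x = f ⟨a, ha⟩ • x := by
  induction f using ContinuousMap.induction_on_of_compact with
  | const r =>
    rw [Phi_const, Algebra.algebraMap_eq_smul_one, _root_.smul_apply, one_apply_eq_self]
    rfl
  | id => rw [Phi_id, hx]; rfl
  | star_id => rw [map_star, Phi_id, star_eig hA hx]; rfl
  | add f g hf hg => rw [map_add, _root_.add_apply, hf, hg, ContinuousMap.add_apply, add_smul]
  | mul f g hf hg =>
    rw [map_mul, mul_apply_eq_comp, hg, map_smul, hf, smul_smul, ContinuousMap.mul_apply, mul_comm]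
  | frequently f hf =>
    have hc : IsClosed {f : C(s, ℂ) | Phi hA hs f x = f ⟨a, ha⟩ • x} := by
      have h1 := Phi_cont hA hs
      have h2 : Continuous fun f : C(s, ℂ) => f ⟨a, ha⟩ := continuous_eval_const _
      exact isClosed_eq (by fun_prop) (by fun_prop)
    have h9 := mem_closure_iff_frequently.mpr hf
    exact hc.closure_subset h9

theorem cfc_eig {A : H →L[ℂ] H} (hA : IsStarNormal A) {x : H} {a : ℂ} (hx : A x = a • x)
    {f : ℂ → ℂ} (hf : Continuous f) : cfc f A x = f a • x := by
  have hcomp : IsCompact (spectrum ℂ A ∪ {a}) :=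
    (spectrum.isCompact A).union isCompact_singleton
  have : CompactSpace (spectrum ℂ A ∪ {a} : Set ℂ) := isCompact_iff_compactSpace.mp hcomp
  have h1 := Phi_eig hA (s := spectrum ℂ A ∪ {a}) Set.subset_union_left (Or.inr rfl) hx
    ⟨fun z => f z, by fun_prop⟩
  rwa [Phi_cfc hA _ hf] at h1

/-- intertwining operators -/
theorem Phi_inter {X Y J : H →L[ℂ] H} (hX : IsStarNormal X) (hY : IsStarNormal Y) {s : Set ℂ}
    [CompactSpace s] (hsX : spectrum ℂ X ⊆ s) (hsY : spectrum ℂ Y ⊆ s) (h1 : X * J = J * Y)
    (h2 : star X * J = J * star Y) (f : C(s, ℂ)) : Phi hX hsX f * J = J * Phi hY hsY f := by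
  induction f using ContinuousMap.induction_on_of_compact with
  | const r =>
    rw [Phi_const, Phi_const]
    exact (Algebra.commutes r J)
  | id => rw [Phi_id, Phi_id, h1]
  | star_id => rw [map_star, map_star, Phi_id, Phi_id, h2]
  | add f g hf hg => rw [map_add, map_add, add_mul, mul_add, hf, hg]
  | mul f g hf hg => rw [map_mul, map_mul, mul_assoc, hg, ← mul_assoc, hf, mul_assoc]
  | frequently f hf =>
    have hc : IsClosed {f : C(s, ℂ) | Phi hX hsX f * J = J * Phi hY hsY f} := by
      have h1 := Phi_cont hX hsX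
      have h2 := Phi_cont hY hsY
      exact isClosed_eq (by fun_prop) (by fun_prop)
    have h9 := mem_closure_iff_frequently.mpr hf
    exact hc.closure_subset h9

theorem cfc_inter {X Y J : H →L[ℂ] H} (hX : IsStarNormal X) (hY : IsStarNormal Y)
    (h1 : X * J = J * Y) (h2 : star X * J = J * star Y) {f : ℂ → ℂ} (hf : Continuous f) :
    cfc f X * J = J * cfc f Y := by
  have hcomp : IsCompact (spectrum ℂ X ∪ spectrum ℂ Y) :=
    (spectrum.isCompact X).union (spectrum.isCompact Y)
  have : CompactSpace (spectrum ℂ X ∪ spectrum ℂ Y : Set ℂ) := isCompact_iff_compactSpace.mp hcomp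
  have h1 := Phi_inter hX hY (s := spectrum ℂ X ∪ spectrum ℂ Y) Set.subset_union_left
    Set.subset_union_right h1 h2 ⟨fun z => f z, by fun_prop⟩
  rwa [Phi_cfc hX _ hf, Phi_cfc hY _ hf] at h1

/-- nuclear operators are compact -/
theorem compact_of_nuclear {T : H →L[ℂ] H} {x y : ℕ → H} (hs : Summable fun k => ‖x k‖ * ‖y k‖)
    (hT : ∀ z, HasSum (fun k => inner ℂ (y k) z • x k) (T z)) : IsCompactOperator T := by
  have hsum : HasSum (fun k => InnerProductSpace.rankOne ℂ (x k) (y k)) T := by
    have h1 : Summable fun k => InnerProductSpace.rankOne ℂ (x k) (y k) := by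
      refine Summable.of_norm_bounded (g := fun k => ‖x k‖ * ‖y k‖) hs fun k => ?_
      rw [InnerProductSpace.norm_rankOne]
    have h2 : ∑' k, InnerProductSpace.rankOne ℂ (x k) (y k) = T := by
      ext z
      have h3 := (h1.hasSum.map (ContinuousLinearMap.apply ℂ H z)
        (ContinuousLinearMap.apply ℂ H z).continuous)
      exact h3.unique (hT z)
    rw [← h2]
    exact h1.hasSum
  refine isCompactOperator_of_tendsto hsum (Eventually.of_forall fun S => ?_)
  have hone : ∀ k, IsCompactOperator (InnerProductSpace.rankOne ℂ (x k) (y k)) := by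
    intro k
    have h1 : IsCompactOperator (ContinuousLinearMap.toSpanSingleton ℂ (x k) : ℂ →L[ℂ] H) :=
      isCompactOperator_of_locallyCompactSpace_rng _
    have h2 := h1.comp_clm (innerSL ℂ (y k))
    exact h2
  classical
  induction S using Finset.induction_on with
  | empty => rw [Finset.sum_empty]; exact isCompactOperator_zero
  | insert k S hk ih =>
    rw [Finset.sum_insert hk]
    exact (hone k).add ih

/-- nuclear representation of the adjoint -/
theorem star_nuclear {T : H →L[ℂ] H} {x y : ℕ → H} (hs : Summable fun k => ‖x k‖ * ‖y k‖)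
    (hT : ∀ z, HasSum (fun k => inner ℂ (y k) z • x k) (T z)) :
    ∀ z, HasSum (fun k => inner ℂ (x k) z • y k) ((star T) z) := by
  have hsum : HasSum (fun k => InnerProductSpace.rankOne ℂ (x k) (y k)) T := by
    have h1 : Summable fun k => InnerProductSpace.rankOne ℂ (x k) (y k) := by
      refine Summable.of_norm_bounded (g := fun k => ‖x k‖ * ‖y k‖) hs fun k => ?_
      rw [InnerProductSpace.norm_rankOne]
    have h2 : ∑' k, InnerProductSpace.rankOne ℂ (x k) (y k) = T := by
      ext z
      have h3 := (h1.hasSum.map (ContinuousLinearMap.apply ℂ H z)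
        (ContinuousLinearMap.apply ℂ H z).continuous)
      exact h3.unique (hT z)
    rw [← h2]
    exact h1.hasSum
  intro z
  have h1 := hsum.star
  have h2 := h1.map (ContinuousLinearMap.apply ℂ H z) (ContinuousLinearMap.apply ℂ H z).continuous
  refine h2.congr_fun ?_ |> id
  intro k
  simp only [Function.comp, ContinuousLinearMap.apply_apply]
  rw [ContinuousLinearMap.star_eq_adjoint, InnerProductSpace.adjoint_rankOne]
  rfl

end Pool.Var
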