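import Pool.Agent.Work.LipGraph.Var.V5

/-!
# VAR: the eigenvectors outside the spectrum of the other operator
-/

set_option autoImplicit false
set_option linter.unusedSectionVars false

open scoped BigOperators InnerProductSpace ComplexConjugate Topology
open Filter Module

namespace Pool.Var

universe v

variable {H : Type v} [NormedAddCommGroup H] [InnerProductSpace ℂ H] [CompleteSpace H]

/-- distance function to the set `K` -/
noncomputable def rC (K : Set ℂ) (z : ℂ) : ℂ := ((Metric.infDist z K : ℝ) : ℂ)

theorem rC_cont (K : Set ℂ) : Continuous (rC K) := by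
  unfold rC
  exact Complex.continuous_ofReal.comp (Metric.continuous_infDist_pt K)

/-- orthonormal sets of eigenvectors of `A` with eigenvalues outside `K` -/
structure EigFam (A : H →L[ℂ] H) (K : Set ℂ) (S : Set H) : Prop where
  on : Orthonormal ℂ (Subtype.val : S → H)
  eig : ∀ x ∈ S, ∃ a, a ∉ K ∧ A x = a • x

theorem exists_max (A : H →L[ℂ] H) (K : Set ℂ) : ∃ S, Maximal (EigFam A K) S := by
  have h := zorn_subset {S : Set H | EigFam A K S} (fun c hc hch => by
    refine ⟨⋃₀ c, ⟨?_, ?_⟩, fun s hs => Set.subset_sUnion_of_mem hs⟩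
    · exact orthonormal_sUnion_of_directed hch.directedOn fun x hx => (hc hx).on
    · rintro x ⟨s, hs, hx⟩
      exact (hc hs).eig x hx)
  exact h

theorem T_sa (A : H →L[ℂ] H) (K : Set ℂ) : IsSelfAdjoint (cfc (rC K) A) := by
  rw [isSelfAdjoint_iff, ← cfc_star]
  congr 1
  funext z
  exact Complex.conj_ofReal _

theorem T_compact {A B : H →L[ℂ] H} (hA : IsStarNormal A) (hB : IsStarNormal B)
    (h : IsCompactOperator (A - B)) (h' : IsCompactOperator (star A - star B)) :
    IsCompactOperator (cfc (rC (spectrum ℂ B)) A : H →L[ℂ] H) := by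
  have h1 := compact_cfc hA hB h h' (rC_cont (spectrum ℂ B))
  have h2 : cfc (rC (spectrum ℂ B)) B = 0 := by
    rw [cfc_congr (g := fun _ => (0 : ℂ)) (fun z hz => ?_), cfc_const_zero]
    unfold rC
    rw [Metric.infDist_zero_of_mem hz, Complex.ofReal_zero]
  rwa [h2, sub_zero] at h1

/-- `T = 0` on the orthogonal complement of a maximal set -/
theorem perp_zero {A : H →L[ℂ] H} (hA : IsStarNormal A) {K : Set ℂ}
    (hT : IsCompactOperator (cfc (rC K) A : H →L[ℂ] H)) {S : Set H} (hS : Maximal (EigFam A K) S) {x : H}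
    (hx : ∀ e ∈ S, inner ℂ e x = 0) : cfc (rC K) A x = 0 := by
  classical
  set T := cfc (rC K) A with hTdef
  have hTsa : IsSelfAdjoint T := T_sa A K
  have hTsymm : T.IsSymmetric := hTsa.isSymmetric
  set V : Submodule ℂ H := (Submodule.span ℂ S)ᗮ with hV
  have memV : ∀ y, y ∈ V ↔ ∀ e ∈ S, inner ℂ e y = 0 := by
    intro y
    rw [hV, Submodule.mem_orthogonal]
    constructor
    · intro h e he
      exact h e (Submodule.subset_span he)
    · intro h u hu
      induction hu using Submodule.span_induction with
      | mem u hu => exact h u hu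
      | zero => exact inner_zero_left _
      | add u w _ _ h1 h2 => rw [inner_add_left, h1, h2, add_zero]
      | smul c u _ h1 => rw [inner_smul_left, h1, mul_zero]
  have hTV : ∀ y ∈ V, T y ∈ V := by
    intro y hy
    rw [memV] at hy ⊢
    intro e he
    obtain ⟨a, -, hae⟩ := hS.prop.eig e he
    have h1 : inner ℂ e (T y) = inner ℂ (T e) y := (hTsymm e y).symm
    rw [h1, hTdef, cfc_eig hA hae (rC_cont K), inner_smul_left, hy e he, mul_zero]
  have hAV : ∀ y ∈ V, A y ∈ V := by
    intro y hy
    rw [memV] at hy ⊢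
    intro e he
    obtain ⟨a, -, hae⟩ := hS.prop.eig e he
    have h1 : inner ℂ e (A y) = inner ℂ ((star A) e) y := by
      rw [ContinuousLinearMap.star_eq_adjoint, ContinuousLinearMap.adjoint_inner_left]
    rw [h1, star_eig hA hae, inner_smul_left, hy e he, mul_zero]
  have hTA : T * A = A * T := by
    have h1 : Commute T A := Commute.cfc (Commute.refl A) hA.star_comm_self (rC K)
    exact h1.eq
  let R : V →L[ℂ] V := T.restrict hTV
  have hRc : IsCompactOperator R := hT.restrict' hTV
  have hRs : R.IsSymmetric := hTsymm.restrict_invariant hTV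
  have hR0 : R = 0 := by
    rw [← ContinuousLinearMap.eq_zero_of_forall_hasEigenvalue_eq_zero hRc hRs]
    intro μ hμ
    by_contra hμ0
    obtain ⟨w, hw⟩ := hμ.exists_hasEigenvector
    have hw1 : R w = μ • w := hw.apply_eq_smul
    have hTw : T w = μ • (w : H) := congrArg Subtype.val hw1
    -- the finite dimensional space
    have hfd : FiniteDimensional ℂ (End.eigenspace T.toLinearMap μ) :=
      ContinuousLinearMap.finite_dimensional_eigenspace hT μ hμ0
    set F : Submodule ℂ H := V ⊓ End.eigenspace T.toLinearMap μ with hF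
    have : FiniteDimensional ℂ F := Submodule.finiteDimensional_inf_right _ _
    have hAF : ∀ y ∈ F, A.toLinearMap y ∈ F := by
      intro y hy
      rw [hF, Submodule.mem_inf] at hy ⊢
      refine ⟨hAV y hy.1, ?_⟩
      have h2 := hy.2
      rw [End.mem_eigenspace_iff] at h2 ⊢
      change T (A y) = μ • A y
      have h3 : T (A y) = A (T y) := by
        rw [← mul_apply_eq_comp, hTA, mul_apply_eq_comp]
      have h4 : T y = μ • y := h2
      rw [h3, h4, map_smul]
    have hwF : (w : H) ∈ F := by
      rw [hF, Submodule.mem_inf]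
      refine ⟨w.2, ?_⟩
      rw [End.mem_eigenspace_iff]
      exact hTw
    have : Nontrivial F := by
      refine ⟨⟨⟨w, hwF⟩, 0, fun h => hw.2 ?_⟩⟩
      have h1 : (w : H) = 0 := congrArg Subtype.val h
      exact Subtype.ext h1
    obtain ⟨a, ha⟩ := End.exists_eigenvalue (A.toLinearMap.restrict hAF)
    obtain ⟨u, hu⟩ := ha.exists_hasEigenvector
    have hu1 : A (u : H) = a • (u : H) := congrArg Subtype.val hu.apply_eq_smul
    have hu0 : (u : H) ≠ 0 := fun h => hu.2 (Subtype.ext h)
    have huF := Submodule.mem_inf.mp u.2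
    have hu2 : T (u : H) = μ • (u : H) := End.mem_eigenspace_iff.mp huF.2
    have hu3 : T (u : H) = rC K a • (u : H) := cfc_eig hA hu1 (rC_cont K)
    have hra : rC K a = μ := by
      have h1 : (rC K a - μ) • (u : H) = 0 := by rw [sub_smul, ← hu3, ← hu2, sub_self]
      rcases smul_eq_zero.mp h1 with h2 | h2
      · exact sub_eq_zero.mp h2
      · exact absurd h2 hu0
    have haK : a ∉ K := by
      intro h
      apply hμ0
      rw [← hra]
      unfold rC
      rw [Metric.infDist_zero_of_mem h, Complex.ofReal_zero]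
    -- normalise
    have hnu : (0 : ℝ) < ‖(u : H)‖ := norm_pos_iff.mpr hu0
    set g : H := ((‖(u : H)‖⁻¹ : ℝ) : ℂ) • (u : H) with hg
    have hgV : ∀ e ∈ S, inner ℂ e g = 0 := by
      intro e he
      rw [hg, inner_smul_right, (memV _).mp huF.1 e he, mul_zero]
    have hgg : inner ℂ g g = (1 : ℂ) := by
      rw [inner_self_eq_norm_sq_to_K, hg, norm_smul, Complex.norm_real, norm_inv, norm_norm,
        inv_mul_cancel₀ hnu.ne']
      simp
    have hgA : A g = a • g := by rw [hg, map_smul, hu1, smul_comm]
    have hins : EigFam A K (insert g S) := by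
      constructor
      · rw [orthonormal_subtype_iff_ite]
        have h1 := orthonormal_subtype_iff_ite.mp hS.prop.on
        intro v hv w hw
        rcases Set.mem_insert_iff.mp hv with rfl | hv'
        · rcases Set.mem_insert_iff.mp hw with rfl | hw'
          · rw [if_pos rfl, hgg]
          · have h2 : inner ℂ g w = 0 := by
              rw [← inner_conj_symm, hgV w hw', map_zero]
            rw [h2, if_neg]
            rintro rfl
            rw [hgg] at h2
            exact one_ne_zero h2
        · rcases Set.mem_insert_iff.mp hw with rfl | hw'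
          · have h2 := hgV v hv'
            rw [h2, if_neg]
            rintro rfl
            rw [hgg] at h2
            exact one_ne_zero h2
          · exact h1 v hv' w hw'
      · intro x hx
        rcases Set.mem_insert_iff.mp hx with rfl | hx'
        · exact ⟨a, haK, hgA⟩
        · exact hS.prop.eig x hx'
    have hgS : g ∈ S := hS.2 hins (Set.subset_insert g S) (Set.mem_insert g S)
    have h1 := hgV g hgS
    rw [hgg] at h1
    exact one_ne_zero h1
  have h1 : R ⟨x, (memV x).mpr hx⟩ = 0 := by rw [hR0]; rfl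
  exact congrArg Subtype.val h1

/-- functions dominated by the distance vanish on the orthogonal complement -/
theorem perp_dom {A : H →L[ℂ] H} (hA : IsStarNormal A) {K : Set ℂ} {x : H}
    (hx : cfc (rC K) A x = 0) {f : ℂ → ℂ} (hf : Continuous f) {C : ℝ}
    (hC : ∀ z ∈ spectrum ℂ A, ‖f z‖ ≤ C * Metric.infDist z K) : cfc f A x = 0 := by
  set F : C(spectrum ℂ A, ℂ) := ⟨fun z => f z, by fun_prop⟩ with hF
  set R : C(spectrum ℂ A, ℂ) := ⟨fun z => rC K z, by have := rC_cont K; fun_prop⟩ with hR
  have e1 : cfc f A = cfcHom hA F := by rw [cfc_apply f A hA hf.continuousOn]; rfl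
  have e2 : cfc (rC K) A = cfcHom hA R := by
    rw [cfc_apply (rC K) A hA (rC_cont K).continuousOn]; rfl
  have h1 : qf (cfcHom hA) (nsq F) x ≤ qf (cfcHom hA) (C ^ 2 • nsq R) x := by
    refine qf_mono _ (fun ω => ?_) x
    rw [ContinuousMap.smul_apply, smul_eq_mul, nsq_apply, nsq_apply, ← mul_pow]
    have h2 : F ω = f ω := rfl
    have h3 : R ω = rC K ω := rfl
    rw [h2, h3]
    refine pow_le_pow_left₀ (norm_nonneg _) ?_ 2
    refine (hC ω ω.2).trans (le_of_eq ?_)
    unfold rC
    rw [Complex.norm_real, Real.norm_eq_abs, abs_of_nonneg Metric.infDist_nonneg]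
  rw [qf_smul, qf_nsq, qf_nsq, ← e1, ← e2, hx, norm_zero] at h1
  have h2 : ‖cfc f A x‖ ^ 2 ≤ 0 := by simpa using h1
  have h3 : ‖cfc f A x‖ = 0 := by
    have := sq_nonneg ‖cfc f A x‖
    exact pow_eq_zero_iff two_ne_zero |>.mp (le_antisymm h2 this)
  exact norm_eq_zero.mp h3

end Pool.Var
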