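import Pool.Agent.Work.LipGraph.Var.V6

/-!
# VAR: moving the eigenvalues to the spectrum of the other operator
-/

set_option autoImplicit false
set_option linter.unusedSectionVars false

open scoped BigOperators InnerProductSpace ComplexConjugate Topology
open Filter Module

namespace Pool.Var

universe v

variable {H : Type v} [NormedAddCommGroup H] [InnerProductSpace ℂ H] [CompleteSpace H]

/-- two operators which agree on `S` and on the orthogonal complement of `S` are equal -/
theorem ext_S {S : Set H} {T₁ T₂ : H →L[ℂ] H} (h1 : ∀ e ∈ S, T₁ e = T₂ e)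
    (h2 : ∀ x, (∀ e ∈ S, inner ℂ e x = 0) → T₁ x = T₂ x) : T₁ = T₂ := by
  set U : Submodule ℂ H := (Submodule.span ℂ S).topologicalClosure with hU
  have : CompleteSpace U := (Submodule.isClosed_topologicalClosure _).completeSpace_coe
  have hU1 : ∀ x ∈ U, T₁ x = T₂ x := by
    intro x hx
    have hc : IsClosed {x : H | T₁ x = T₂ x} := isClosed_eq T₁.continuous T₂.continuous
    have h3 : ((Submodule.span ℂ S : Submodule ℂ H) : Set H) ⊆ {x : H | T₁ x = T₂ x} := by
      intro u hu
      induction hu using Submodule.span_induction with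
      | mem u hu => exact h1 u hu
      | zero => simp
      | add u w _ _ h1 h2 =>
        have h1' : T₁ u = T₂ u := h1
        have h2' : T₁ w = T₂ w := h2
        change T₁ (u + w) = T₂ (u + w)
        rw [map_add, map_add, h1', h2']
      | smul c u _ h1 =>
        have h1' : T₁ u = T₂ u := h1
        change T₁ (c • u) = T₂ (c • u)
        rw [map_smul, map_smul, h1']
    have h4 : x ∈ closure ((Submodule.span ℂ S : Submodule ℂ H) : Set H) := by
      rw [hU, ← SetLike.mem_coe, Submodule.topologicalClosure_coe] at hx
      exact hx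
    exact hc.closure_subset_iff.mpr h3 h4
  ext x
  obtain ⟨u, hu, w, hw, rfl⟩ := U.exists_add_mem_mem_orthogonal x
  rw [map_add, map_add, hU1 u hu, h2 w]
  intro e he
  rw [Submodule.mem_orthogonal] at hw
  exact hw e (Submodule.le_topologicalClosure _ (Submodule.subset_span he))

/-- diagonal operator on an orthonormal set -/
noncomputable def dgo (S : Set H) (w : S → ℂ) : H →L[ℂ] H :=
  ∑' e : S, w e • InnerProductSpace.rankOne ℂ (e : H) (e : H)

section

variable {S : Set H} (hS : Orthonormal ℂ (Subtype.val : S → H)) {w : S → ℂ}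
  (hw : Summable fun e => ‖w e‖)

include hS hw

theorem dgo_hasSum : HasSum (fun e : S => w e • InnerProductSpace.rankOne ℂ (e : H) (e : H))
    (dgo S w) := by
  refine Summable.hasSum (Summable.of_norm_bounded hw fun e => ?_)
  rw [norm_smul, InnerProductSpace.norm_rankOne, hS.1 e, mul_one, mul_one]

theorem dgo_apply (z : H) : HasSum (fun e : S => inner ℂ (e : H) z • (w e • (e : H)))
    (dgo S w z) := by
  have h3 := ((dgo_hasSum hS hw).map (ContinuousLinearMap.apply ℂ H z)
    (ContinuousLinearMap.apply ℂ H z).continuous)
  refine h3.congr_fun ?_ |> id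
  intro e
  simp only [Function.comp, ContinuousLinearMap.apply_apply, _root_.smul_apply,
    InnerProductSpace.rankOne_apply]
  rw [smul_comm]

theorem dgo_mem (e : S) : dgo S w e = w e • (e : H) := by
  have h1 := dgo_apply hS hw (e : H)
  have h2 := hasSum_single e (f := fun e' : S => inner ℂ (e' : H) (e : H) • (w e' • (e' : H)))
    (fun e' he' => by
      have h3 : inner ℂ (e' : H) (e : H) = 0 := hS.2 he'
      simp only [h3, zero_smul])
  rw [h1.unique h2, inner_self_eq_norm_sq_to_K, hS.1 e]
  simp

theorem dgo_perp {x : H} (hx : ∀ e ∈ S, inner ℂ e x = 0) : dgo S w x = 0 := by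
  have h1 := dgo_apply hS hw x
  have h2 : (fun e : S => inner ℂ (e : H) x • (w e • (e : H))) = fun _ => 0 := by
    funext e
    rw [hx e e.2, zero_smul]
  rw [h2] at h1
  exact h1.unique hasSum_zero

theorem star_dgo : star (dgo S w) = dgo S (fun e => conj (w e)) := by
  have hw' : Summable fun e => ‖(fun e => conj (w e)) e‖ := by
    simpa using hw
  have h1 := (dgo_hasSum hS hw).star
  refine h1.unique ?_
  refine (dgo_hasSum hS hw').congr_fun ?_ |> id
  intro e
  rw [star_smul, ContinuousLinearMap.star_eq_adjoint, InnerProductSpace.adjoint_rankOne]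
  rfl

end

/-- projection onto the orthogonal complement -/
noncomputable def JJ (S : Set H) : H →L[ℂ] H := (Submodule.span ℂ S)ᗮ.starProjection

theorem mem_perp {S : Set H} (y : H) : y ∈ (Submodule.span ℂ S)ᗮ ↔ ∀ e ∈ S, inner ℂ e y = 0 := by
  rw [Submodule.mem_orthogonal]
  constructor
  · intro h e he
    exact h e (Submodule.subset_span he)
  · intro h u hu
    induction hu using Submodule.span_induction with
    | mem u hu => exact h u hu
    | zero => exact inner_zero_left _
    | add u w _ _ h1 h2 => rw [inner_add_left, h1, h2, add_zero]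
    | smul c u _ h1 => rw [inner_smul_left, h1, mul_zero]

theorem JJ_perp {S : Set H} {x : H} (hx : ∀ e ∈ S, inner ℂ e x = 0) : JJ S x = x := by
  unfold JJ
  rw [Submodule.starProjection_eq_self_iff]
  exact (mem_perp x).mpr hx

theorem JJ_mem {S : Set H} {e : H} (he : e ∈ S) : JJ S e = 0 := by
  unfold JJ
  rw [Submodule.starProjection_apply_eq_zero_iff]
  exact Submodule.le_orthogonal_orthogonal _ (Submodule.subset_span he)

end Pool.Var
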