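import Pool.Agent.Work.LipGraph.Var.V7

/-!
# VAR: the reduction theorem
-/

set_option autoImplicit false
set_option linter.unusedSectionVars false

open scoped BigOperators InnerProductSpace ComplexConjugate Topology
open Filter Module

namespace Pool.Var

universe v

variable {H : Type v} [NormedAddCommGroup H] [InnerProductSpace ℂ H] [CompleteSpace H]

section

variable {A : H →L[ℂ] H} (hA : IsStarNormal A) {S : Set H}
  (hS : Orthonormal ℂ (Subtype.val : S → H)) {a b : S → ℂ} (ha : ∀ e : S, A e = a e • (e : H))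
  (hw : Summable fun e => ‖a e - b e‖)

include hA ha in
theorem A_perp {x : H} (hx : ∀ e ∈ S, inner ℂ e x = 0) : ∀ e ∈ S, inner ℂ e (A x) = 0 := by
  intro e he
  have h1 : inner ℂ e (A x) = inner ℂ ((star A) e) x := by
    rw [ContinuousLinearMap.star_eq_adjoint, ContinuousLinearMap.adjoint_inner_left]
  rw [h1, star_eig hA (ha ⟨e, he⟩), inner_smul_left, hx e he, mul_zero]

include ha in
theorem starA_perp {x : H} (hx : ∀ e ∈ S, inner ℂ e x = 0) :
    ∀ e ∈ S, inner ℂ e ((star A) x) = 0 := by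
  intro e he
  have h1 : inner ℂ e ((star A) x) = inner ℂ (A e) x := by
    rw [ContinuousLinearMap.star_eq_adjoint, ContinuousLinearMap.adjoint_inner_right]
  rw [h1, ha ⟨e, he⟩, inner_smul_left, hx e he, mul_zero]

/-- the new operator -/
noncomputable def NN (A : H →L[ℂ] H) {S : Set H} (a b : S → ℂ) : H →L[ℂ] H :=
  A - dgo S (fun e => a e - b e)

include hS ha hw in
theorem NN_mem (e : S) : NN A a b e = b e • (e : H) := by
  unfold NN
  rw [_root_.sub_apply, dgo_mem hS hw, ha, ← sub_smul]
  congr 1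
  ring

include hS hw in
theorem NN_perp {x : H} (hx : ∀ e ∈ S, inner ℂ e x = 0) : NN A a b x = A x := by
  unfold NN
  rw [_root_.sub_apply, dgo_perp hS hw hx, sub_zero]

include hS hA ha hw in
theorem starNN_mem (e : S) : (star (NN A a b)) e = conj (b e) • (e : H) := by
  unfold NN
  have hw' : Summable fun e => ‖(fun e => conj (a e - b e)) e‖ := by
    simp only [RCLike.norm_conj]; exact hw
  rw [star_sub, _root_.sub_apply, star_dgo hS hw, dgo_mem hS hw', star_eig hA (ha e), ← sub_smul]
  congr 1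
  simp

include hS hw in
theorem starNN_perp {x : H} (hx : ∀ e ∈ S, inner ℂ e x = 0) :
    (star (NN A a b)) x = (star A) x := by
  unfold NN
  have hw' : Summable fun e => ‖(fun e => conj (a e - b e)) e‖ := by
    simp only [RCLike.norm_conj]; exact hw
  rw [star_sub, _root_.sub_apply, star_dgo hS hw, dgo_perp hS hw' hx, sub_zero]

include hS hA ha hw in
theorem NN_normal : IsStarNormal (NN A a b) := by
  rw [isStarNormal_iff]
  change star (NN A a b) * NN A a b = NN A a b * star (NN A a b)
  refine ext_S (S := S) (fun e he => ?_) (fun x hx => ?_)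
  · rw [mul_apply_eq_comp, mul_apply_eq_comp, NN_mem hS ha hw ⟨e, he⟩,
      starNN_mem hA hS ha hw ⟨e, he⟩, map_smul, map_smul, NN_mem hS ha hw ⟨e, he⟩,
      starNN_mem hA hS ha hw ⟨e, he⟩, smul_comm]
  · rw [mul_apply_eq_comp, mul_apply_eq_comp, NN_perp hS hw hx, starNN_perp hS hw hx,
      NN_perp hS hw (starA_perp ha hx), starNN_perp hS hw (A_perp hA ha hx)]
    rw [← mul_apply_eq_comp, ← mul_apply_eq_comp, hA.star_comm_self.eq]

include hS hA ha hw in
theorem cfc_NN_perp {f : ℂ → ℂ} (hf : Continuous f) {x : H} (hx : ∀ e ∈ S, inner ℂ e x = 0) :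
    cfc f (NN A a b) x = cfc f A x := by
  have hN := NN_normal hA hS ha hw
  have h1 : NN A a b * JJ S = JJ S * A := by
    refine ext_S (S := S) (fun e he => ?_) (fun x hx => ?_)
    · rw [mul_apply_eq_comp, mul_apply_eq_comp, JJ_mem he, ha ⟨e, he⟩, map_smul, map_zero,
        JJ_mem he, smul_zero]
    · rw [mul_apply_eq_comp, mul_apply_eq_comp, JJ_perp hx, NN_perp hS hw hx,
        JJ_perp (A_perp hA ha hx)]
  have h2 : star (NN A a b) * JJ S = JJ S * star A := by
    refine ext_S (S := S) (fun e he => ?_) (fun x hx => ?_)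
    · rw [mul_apply_eq_comp, mul_apply_eq_comp, JJ_mem he, star_eig hA (ha ⟨e, he⟩), map_smul,
        map_zero, JJ_mem he, smul_zero]
    · rw [mul_apply_eq_comp, mul_apply_eq_comp, JJ_perp hx, starNN_perp hS hw hx,
        JJ_perp (starA_perp ha hx)]
  have h3 := cfc_inter hN hA h1 h2 hf
  have h4 : cfc f (NN A a b) x = (cfc f (NN A a b) * JJ S) x := by
    rw [mul_apply_eq_comp, JJ_perp hx]
  rw [h4, h3, mul_apply_eq_comp, JJ_perp]
  intro e he
  have h5 : inner ℂ e (cfc f A x) = inner ℂ ((star (cfc f A)) e) x := by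
    rw [ContinuousLinearMap.star_eq_adjoint, ContinuousLinearMap.adjoint_inner_left]
  rw [h5, ← cfc_star, cfc_eig hA (ha ⟨e, he⟩) (by fun_prop), inner_smul_left, hx e he, mul_zero]

include hS hA ha hw in
/-- the functional calculus of the new operator -/
theorem cfc_NN {f : ℂ → ℂ} (hf : Continuous f) (hfs : Summable fun e => ‖f (a e) - f (b e)‖) :
    cfc f A - cfc f (NN A a b) = dgo S (fun e => f (a e) - f (b e)) := by
  have hN := NN_normal hA hS ha hw
  refine ext_S (S := S) (fun e he => ?_) (fun x hx => ?_)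
  · rw [_root_.sub_apply, cfc_eig hA (ha ⟨e, he⟩) hf, cfc_eig hN (NN_mem hS ha hw ⟨e, he⟩) hf,
      ← sub_smul]
    exact (dgo_mem hS hfs ⟨e, he⟩).symm
  · rw [_root_.sub_apply, cfc_NN_perp hA hS ha hw hf hx, sub_self, dgo_perp hS hfs hx]

include hS hA ha hw in
/-- the spectrum of the new operator -/
theorem spectrum_NN {K : Set ℂ} (hK : IsClosed K) (hKn : K.Nonempty) (hb : ∀ e, b e ∈ K)
    (hperp : ∀ x, (∀ e ∈ S, inner ℂ e x = 0) → cfc (rC K) A x = 0) :
    spectrum ℂ (NN A a b) ⊆ K := by
  have hN := NN_normal hA hS ha hw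
  have h0 : cfc (rC K) (NN A a b) = 0 := by
    refine ext_S (S := S) (fun e he => ?_) (fun x hx => ?_)
    · rw [cfc_eig hN (NN_mem hS ha hw ⟨e, he⟩) (rC_cont K)]
      unfold rC
      rw [Metric.infDist_zero_of_mem (hb _), Complex.ofReal_zero, zero_smul]
      rfl
    · rw [cfc_NN_perp hA hS ha hw (rC_cont K) hx, hperp x hx]
      rfl
  intro z hz
  have h1 := cfc_map_spectrum (rC K) (NN A a b) hN (rC_cont K).continuousOn
  rw [h0] at h1
  have h2 : rC K z ∈ spectrum ℂ (0 : H →L[ℂ] H) := h1 ▸ ⟨z, hz, rfl⟩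
  have : Nontrivial (H →L[ℂ] H) := by
    by_contra hne
    rw [not_nontrivial_iff_subsingleton] at hne
    have := spectrum.of_subsingleton (R := ℂ) (NN A a b)
    rw [this] at hz
    exact hz
  rw [spectrum.zero_eq, Set.mem_singleton_iff] at h2
  unfold rC at h2
  rw [Complex.ofReal_eq_zero] at h2
  exact (hK.mem_iff_infDist_zero hKn).mpr h2

end

/-- **Reduction theorem** (structure). -/
theorem reduction {A B : H →L[ℂ] H} (hA : IsStarNormal A) (hB : IsStarNormal B) {x y : ℕ → H}
    (hs : Summable fun k => ‖x k‖ * ‖y k‖)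
    (hD : ∀ z, HasSum (fun k => inner ℂ (y k) z • x k) ((A - B) z)) :
    ∃ (S : Set H) (a b : S → ℂ), Orthonormal ℂ (Subtype.val : S → H) ∧
      (∀ e : S, A e = a e • (e : H)) ∧ (∀ e, a e ∉ spectrum ℂ B) ∧ (∀ e, b e ∈ spectrum ℂ B) ∧
      (Summable fun e => ‖a e - b e‖) ∧ ∑' e, ‖a e - b e‖ ≤ 6144 * ∑' k, ‖x k‖ * ‖y k‖ ∧
      IsStarNormal (NN A a b) ∧ spectrum ℂ (NN A a b) ⊆ spectrum ℂ B ∧
      ∀ f : ℂ → ℂ, Continuous f → (Summable fun e => ‖f (a e) - f (b e)‖) →
        cfc f A - cfc f (NN A a b) = dgo S (fun e => f (a e) - f (b e)) := by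
  set K := spectrum ℂ B with hK
  have hKc : IsClosed K := spectrum.isClosed B
  have hKk : IsCompact K := spectrum.isCompact B
  have hcD : IsCompactOperator (A - B) := compact_of_nuclear hs hD
  have hcD' : IsCompactOperator (star A - star B) := by
    rw [← star_sub]
    exact compact_of_nuclear (x := y) (y := x) (by simpa [mul_comm] using hs)
      (star_nuclear hs hD)
  obtain ⟨S, hS⟩ := exists_max A K
  have hperp : ∀ x, (∀ e ∈ S, inner ℂ e x = 0) → cfc (rC K) A x = 0 := fun x hx =>
    perp_zero hA (T_compact hA hB hcD hcD') hS hx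
  have hSn : ∀ e : S, K.Nonempty := by
    intro e
    have : Nontrivial H := ⟨⟨e, 0, hS.prop.on.ne_zero e⟩⟩
    exact spectrum.nonempty B
  have heig := hS.prop.eig
  choose! a' ha' using heig
  set a : S → ℂ := fun e => a' e with ha
  have haK : ∀ e, a e ∉ K := fun e => (ha' e e.2).1
  have haA : ∀ e : S, A e = a e • (e : H) := fun e => (ha' e e.2).2
  have hb : ∀ e : S, ∃ b ∈ K, Metric.infDist (a e) K = dist (a e) b := fun e =>
    hKk.exists_infDist_eq_dist (hSn e) (a e)
  choose b hbK hbd using hb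
  have hsum : ∀ F : Finset S, ∑ e ∈ F, ‖a e - b e‖ ≤ 6144 * ∑' k, ‖x k‖ * ‖y k‖ := by
    intro F
    have h1 := half hA hB rfl hs hD (e := fun i : F => ((i : S) : H))
      (hS.prop.on.comp _ Subtype.val_injective) (a := fun i => a i) (fun i => haA i)
    refine le_trans (le_of_eq ?_) h1
    rw [← Finset.sum_coe_sort]
    refine Finset.sum_congr rfl fun i _ => ?_
    rw [← dist_eq_norm, hbd]
  have hw : Summable fun e => ‖a e - b e‖ := summable_of_sum_le (fun e => norm_nonneg _) hsum
  refine ⟨S, a, b, hS.prop.on, haA, haK, hbK, hw, hw.tsum_le_of_sum_le hsum,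
    NN_normal hA hS.prop.on haA hw, ?_, fun f hf hfs => cfc_NN hA hS.prop.on haA hw hf hfs⟩
  rcases K.eq_empty_or_nonempty with h | h
  · have hH : Subsingleton H := by
      by_contra hne
      rw [not_subsingleton_iff_nontrivial] at hne
      have := spectrum.nonempty B
      rw [← hK, h] at this
      exact Set.not_nonempty_empty this
    have : spectrum ℂ (NN A a b) = ∅ := by
      have : Subsingleton (H →L[ℂ] H) := ⟨fun S T => by ext x; exact Subsingleton.elim _ _⟩
      exact spectrum.of_subsingleton _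
    rw [this]
    exact Set.empty_subset _
  · exact spectrum_NN hA hS.prop.on haA hw hKc h hbK hperp

end Pool.Var
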