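import Pool.Agent.Work.LipGraph.Var.V8

/-!
# VAR: measures on segments, traces of diagonal operators
-/

set_option autoImplicit false
set_option linter.unusedSectionVars false

open scoped BigOperators InnerProductSpace ComplexConjugate Topology
open Filter Module MeasureTheory

namespace Pool.Var

universe v

/-! ### segments -/

/-- uniform measure on the segment from `b` to `b + w` -/
noncomputable def seg (b w : ℂ) : Measure ℂ :=
  Measure.map (fun t : ℝ => b + t * w) (volume.restrict (Set.Ioc (0 : ℝ) 1))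

theorem seg_univ (b w : ℂ) : seg b w Set.univ = 1 := by
  unfold seg
  rw [Measure.map_apply (by fun_prop) MeasurableSet.univ, Set.preimage_univ,
    Measure.restrict_apply_univ, Real.volume_Ioc]
  norm_num

theorem seg_integral (b w : ℂ) {g : ℂ → ℂ} (hg : Continuous g) :
    ∫ z, g z ∂(seg b w) = ∫ t in (0 : ℝ)..1, g (b + t * w) := by
  unfold seg
  rw [integral_map (by fun_prop) hg.aestronglyMeasurable,
    intervalIntegral.integral_of_le zero_le_one]

/-- directional derivative -/
theorem fderiv_lin (f : ℂ → ℂ) (z w : ℂ) : fderiv ℝ f z w =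
    (w.re : ℂ) * fderiv ℝ f z 1 + (w.im : ℂ) * fderiv ℝ f z Complex.I := by
  have h : w = w.re • (1 : ℂ) + w.im • Complex.I := by
    rw [Complex.real_smul, Complex.real_smul, mul_one]
    exact (Complex.re_add_im w).symm
  conv_lhs => rw [h]
  rw [map_add, map_smul, map_smul, Complex.real_smul, Complex.real_smul]

theorem segment_formula (b w : ℂ) {f : ℂ → ℂ} (hf : ContDiff ℝ (⊤ : ℕ∞) f) :
    f (b + w) - f b = (w.re : ℂ) * ∫ z, fderiv ℝ f z 1 ∂(seg b w) +
      (w.im : ℂ) * ∫ z, fderiv ℝ f z Complex.I ∂(seg b w) := by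
  have hf1 : ContDiff ℝ 1 f := hf.of_le (by exact_mod_cast le_top)
  have hcont : Continuous (fderiv ℝ f) := hf1.continuous_fderiv one_ne_zero
  have hd : Differentiable ℝ f := hf1.differentiable one_ne_zero
  have h1 : ∀ v : ℂ, Continuous fun z => fderiv ℝ f z v := fun v => by fun_prop
  rw [seg_integral b w (h1 1), seg_integral b w (h1 Complex.I)]
  have h2 : ∀ t : ℝ, HasDerivAt (fun t : ℝ => f (b + t * w)) (fderiv ℝ f (b + t * w) w) t := by
    intro t
    have h3 : HasDerivAt (fun t : ℝ => b + t * w) w t := by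
      have := ((Complex.ofRealCLM.hasDerivAt (x := t)).mul_const w).const_add b
      simpa using this
    exact (hd (b + t * w)).hasFDerivAt.comp_hasDerivAt t h3
  have h4 : ∫ t in (0 : ℝ)..1, fderiv ℝ f (b + t * w) w = f (b + w) - f b := by
    rw [intervalIntegral.integral_eq_sub_of_hasDerivAt (fun t _ => h2 t)
      (Continuous.intervalIntegrable (by fun_prop) _ _)]
    simp
  rw [← h4]
  have h5 : ∀ v : ℂ, IntervalIntegrable (fun t : ℝ => fderiv ℝ f (b + t * w) v) volume 0 1 :=
    fun v => Continuous.intervalIntegrable (by fun_prop) _ _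
  rw [← intervalIntegral.integral_const_mul, ← intervalIntegral.integral_const_mul,
    ← intervalIntegral.integral_add ((h5 1).const_mul _) ((h5 Complex.I).const_mul _)]
  refine intervalIntegral.integral_congr fun t _ => ?_
  exact fderiv_lin f _ w

/-! ### sums of segments -/

section

variable {ι : Type*}

/-- weighted sum of the uniform measures on segments -/
noncomputable def msum (b w : ι → ℂ) (c : ι → ℝ) : Measure ℂ :=
  Measure.sum fun i => ENNReal.ofReal (c i) • seg (b i) (w i)

theorem msum_univ (b w : ι → ℂ) {c : ι → ℝ} (hc0 : ∀ i, 0 ≤ c i) (hc : Summable c) :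
    msum b w c Set.univ = ENNReal.ofReal (∑' i, c i) := by
  unfold msum
  rw [Measure.sum_apply _ MeasurableSet.univ, ENNReal.ofReal_tsum_of_nonneg hc0 hc]
  refine tsum_congr fun i => ?_
  rw [Measure.smul_apply, seg_univ, smul_eq_mul, mul_one]

theorem msum_hasSum (b w : ι → ℂ) {c : ι → ℝ} (hc0 : ∀ i, 0 ≤ c i) (hc : Summable c)
    {g : ℂ → ℂ} (hg : Continuous g) {B : ℝ} (hB : ∀ z, ‖g z‖ ≤ B) :
    HasSum (fun i => (c i : ℂ) * ∫ z, g z ∂(seg (b i) (w i))) (∫ z, g z ∂(msum b w c)) := by
  have hfin : IsFiniteMeasure (msum b w c) := by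
    constructor
    rw [msum_univ b w hc0 hc]
    exact ENNReal.ofReal_lt_top
  have hint : Integrable g (msum b w c) :=
    Integrable.of_bound hg.aestronglyMeasurable B (Eventually.of_forall hB)
  have h := hasSum_integral_measure (μ := fun i => ENNReal.ofReal (c i) • seg (b i) (w i)) hint
  refine h.congr_fun ?_ |> id
  intro i
  rw [integral_smul_measure, ENNReal.toReal_ofReal (hc0 i), Complex.real_smul]

/-- the measures of the trace formula -/
theorem measures (a b : ι → ℂ) (hw : Summable fun i => ‖a i - b i‖) :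
    ∃ μ : Fin 4 → Measure ℂ, (∀ i, IsFiniteMeasure (μ i)) ∧
      (∀ i, (μ i Set.univ).toReal ≤ ∑' i, ‖a i - b i‖) ∧
      ∀ f : ℂ → ℂ, ContDiff ℝ (⊤ : ℕ∞) f → HasCompactSupport f →
        HasSum (fun i => f (a i) - f (b i))
          (((∫ z : ℂ, fderiv ℝ f z 1 ∂(μ 0)) - ∫ z : ℂ, fderiv ℝ f z 1 ∂(μ 1)) +
            ((∫ z : ℂ, fderiv ℝ f z Complex.I ∂(μ 2)) -
              ∫ z : ℂ, fderiv ℝ f z Complex.I ∂(μ 3))) := by
  set w : ι → ℂ := fun i => a i - b i with hwdef
  set c : Fin 4 → ι → ℝ := ![fun i => max (w i).re 0, fun i => max (-(w i).re) 0,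
    fun i => max (w i).im 0, fun i => max (-(w i).im) 0] with hc
  have hc0 : ∀ k i, 0 ≤ c k i := by
    intro k i
    fin_cases k <;> exact le_max_right _ _
  have hcw : ∀ k i, c k i ≤ ‖w i‖ := by
    intro k i
    have h1 := Complex.abs_re_le_norm (w i)
    have h2 := Complex.abs_im_le_norm (w i)
    have h3 := norm_nonneg (w i)
    rw [abs_le] at h1 h2
    fin_cases k
    · exact max_le h1.2 h3
    · exact max_le (by linarith) h3
    · exact max_le h2.2 h3
    · exact max_le (by linarith) h3
  have hcs : ∀ k, Summable (c k) := fun k =>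
    Summable.of_nonneg_of_le (hc0 k) (hcw k) hw
  refine ⟨fun k => msum b w (c k), fun k => ?_, fun k => ?_, fun f hf hfc => ?_⟩
  · constructor
    rw [msum_univ b w (hc0 k) (hcs k)]
    exact ENNReal.ofReal_lt_top
  · rw [msum_univ b w (hc0 k) (hcs k), ENNReal.toReal_ofReal (tsum_nonneg (hc0 k))]
    exact (hcs k).tsum_le_tsum (hcw k) hw
  · have hf1 : ContDiff ℝ 1 f := hf.of_le (by exact_mod_cast le_top)
    have hcont : Continuous (fderiv ℝ f) := hf1.continuous_fderiv one_ne_zero
    obtain ⟨B, hB⟩ := hcont.bounded_above_of_compact_support (hfc.fderiv ℝ)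
    have hg : ∀ v : ℂ, Continuous fun z => fderiv ℝ f z v := fun v => by fun_prop
    have hgB : ∀ v z : ℂ, ‖fderiv ℝ f z v‖ ≤ B * ‖v‖ := fun v z =>
      ((fderiv ℝ f z).le_opNorm v).trans (by gcongr; exact hB z)
    have s0 := msum_hasSum b w (hc0 0) (hcs 0) (hg 1) (hgB 1)
    have s1 := msum_hasSum b w (hc0 1) (hcs 1) (hg 1) (hgB 1)
    have s2 := msum_hasSum b w (hc0 2) (hcs 2) (hg Complex.I) (hgB Complex.I)
    have s3 := msum_hasSum b w (hc0 3) (hcs 3) (hg Complex.I) (hgB Complex.I)
    refine ((s0.sub s1).add (s2.sub s3)).congr_fun ?_ |> id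
    intro i
    have h1 := segment_formula (b i) (w i) hf
    have h2 : b i + w i = a i := by rw [hwdef]; ring
    rw [h2] at h1
    rw [h1]
    have h3 : ∀ t : ℝ, ((max t 0 : ℝ) : ℂ) - ((max (-t) 0 : ℝ) : ℂ) = t := by
      intro t
      rw [← Complex.ofReal_sub]
      congr 1
      rcases le_total t 0 with h | h
      · rw [max_eq_right h, max_eq_left (by linarith)]; ring
      · rw [max_eq_left h, max_eq_right (by linarith)]; ring
    have e0 : c 0 i = max (w i).re 0 := rfl
    have e1 : c 1 i = max (-(w i).re) 0 := rfl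
    have e2 : c 2 i = max (w i).im 0 := rfl
    have e3 : c 3 i = max (-(w i).im) 0 := rfl
    rw [e0, e1, e2, e3, ← sub_mul, ← sub_mul, h3, h3]

end

/-! ### traces of diagonal operators -/

section

variable {H : Type v} [NormedAddCommGroup H] [InnerProductSpace ℂ H] [CompleteSpace H]

/-- nuclear representation of a diagonal operator -/
theorem dgo_nuclear {S : Set H} [Countable S] (hS : Orthonormal ℂ (Subtype.val : S → H))
    {w : S → ℂ} (hw : Summable fun e => ‖w e‖) : ∃ x y : ℕ → H,
      Summable (fun k => ‖x k‖ * ‖y k‖) ∧ ∑' k, ‖x k‖ * ‖y k‖ = ∑' e, ‖w e‖ ∧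
      (∀ z, HasSum (fun k => inner ℂ (y k) z • x k) (dgo S w z)) ∧
      HasSum (fun k => inner ℂ (y k) (x k)) (∑' e, w e) := by
  classical
  obtain ⟨enc, henc⟩ := exists_injective_nat S
  set x : ℕ → H := Function.extend enc (fun e : S => w e • (e : H)) 0 with hx
  set y : ℕ → H := Function.extend enc (fun e : S => (e : H)) 0 with hy
  have hxe : ∀ e : S, x (enc e) = w e • (e : H) := fun e => henc.extend_apply _ _ e
  have hye : ∀ e : S, y (enc e) = (e : H) := fun e => henc.extend_apply _ _ e
  have hx0 : ∀ k, k ∉ Set.range enc → x k = 0 := fun k hk => by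
    rw [hx, Function.extend_apply' _ _ _ (by simpa using hk)]; rfl
  have h1 : HasSum (fun k => ‖x k‖ * ‖y k‖) (∑' e, ‖w e‖) := by
    rw [← henc.hasSum_iff]
    · refine hw.hasSum.congr_fun ?_ |> id
      intro e
      simp only [Function.comp]
      rw [hxe, hye, norm_smul, hS.1 e, mul_one, mul_one]
    · intro k hk
      rw [hx0 k hk, norm_zero, zero_mul]
  refine ⟨x, y, h1.summable, h1.tsum_eq, fun z => ?_, ?_⟩
  · rw [← henc.hasSum_iff]
    · refine (dgo_apply hS hw z).congr_fun ?_ |> id
      intro e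
      simp only [Function.comp]
      rw [hxe, hye]
    · intro k hk
      rw [hx0 k hk, smul_zero]
  · rw [← henc.hasSum_iff]
    · refine hw.of_norm.hasSum.congr_fun ?_ |> id
      intro e
      simp only [Function.comp]
      rw [hxe, hye, inner_smul_right, inner_self_eq_norm_sq_to_K, hS.1 e]
      simp
    · intro k hk
      rw [hx0 k hk, inner_zero_right]

theorem dgo_trace {S : Set H} [Countable S] (hS : Orthonormal ℂ (Subtype.val : S → H))
    {w : S → ℂ} (hw : Summable fun e => ‖w e‖) {ι : Type} (e : HilbertBasis ι ℂ H) :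
    HasSum (fun i => inner ℂ (e i) (dgo S w (e i))) (∑' e, w e) := by
  obtain ⟨x, y, h1, -, h3, h4⟩ := dgo_nuclear hS hw
  have h5 := (Pool.PN.nuc_series h1 h3).tr ι e 1 1
  have h6 : Pool.PN.serF x y h1 (1 * 1) = ∑' e, w e := by
    rw [← h4.tsum_eq]
    rfl
  rw [h6] at h5
  exact h5

end

end Pool.Var
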